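import Pool.Agent.P.MP_d483fb_an.Z.Su.Quot

/-!
The quotient of a normed group by a discrete subgroup: metric, height, Borel section, cocycle.
-/

open scoped Topology
open Filter Set Metric MeasureTheory

set_option linter.unusedSectionVars false

noncomputable section

namespace Pool.Agent.P.MP_d483fb_an.Z

/-- A normed group with a discrete subgroup. -/
structure Lat (G : Type) [Group G] [TopologicalSpace G] extends Nm G where
  Γ : Subgroup G
  disc : DiscreteTopology Γ

namespace Lat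

variable {G : Type} [Group G] [TopologicalSpace G] [IsTopologicalGroup G] [T2Space G] (L : Lat G)

instance : DiscreteTopology L.Γ := L.disc

theorem closed : IsClosed (L.Γ : Set G) := Subgroup.isClosed_of_discrete

theorem fin (R : ℝ) : {γ : L.Γ | L.len γ ≤ R}.Finite :=
  (show IsCompact {γ : L.Γ | L.len γ ≤ R} from
    L.closed.isClosedEmbedding_subtypeVal.isCompact_preimage (L.cpt R)).finite_of_discrete

theorem len_le (g h : G) (γ : G) : L.len γ ≤ L.len g + L.len (g * γ * h) + L.len h := by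
  have := L.mul3 g⁻¹ (g * γ * h) h⁻¹
  rwa [L.inv, L.inv, show g⁻¹ * (g * γ * h) * h⁻¹ = γ by group] at this

theorem fin' (g h : G) (R : ℝ) : {γ : L.Γ | L.len (g * γ * h) ≤ R}.Finite :=
  (L.fin (L.len g + R + L.len h)).subset fun γ hγ =>
    (L.len_le g h γ).trans (by have : L.len (g * γ * h) ≤ R := hγ; linarith)

instance : Countable L.Γ := by
  have h : (univ : Set L.Γ) = ⋃ n : ℕ, {γ : L.Γ | L.len γ ≤ n} := by
    ext γ
    simpa using exists_nat_ge (L.len γ)
  rw [← countable_univ_iff, h]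
  exact countable_iUnion fun n => (L.fin n).countable

/-- Nontrivial elements of the lattice are not short. -/
theorem exists_sys : ∃ r : ℝ, 0 < r ∧ ∀ γ ∈ L.Γ, L.len γ < r → γ = 1 := by
  have h : {(1 : L.Γ)} ∈ 𝓝 (1 : L.Γ) := (isOpen_discrete _).mem_nhds rfl
  rw [nhds_subtype, mem_comap] at h
  obtain ⟨U, hU, h1⟩ := h
  obtain ⟨r, hr, h2⟩ := L.ball_subset hU
  exact ⟨r, hr, fun γ hγ hl => congrArg Subtype.val (h1 (show (⟨γ, hγ⟩ : L.Γ) ∈ _ from h2 γ hl))⟩

/-- The base `G ⧸ Γ`. -/
def B : Type := G ⧸ L.Γ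

/-- The quotient map. -/
def pj (g : G) : L.B := (QuotientGroup.mk g : G ⧸ L.Γ)

theorem pj_eq {g h : G} : L.pj g = L.pj h ↔ g⁻¹ * h ∈ L.Γ := QuotientGroup.eq

theorem pj_surj : Function.Surjective L.pj := QuotientGroup.mk_surjective

theorem pj_mul (g : G) (γ : L.Γ) : L.pj (g * γ) = L.pj g :=
  (L.pj_eq.mpr (by simp)).symm

theorem par : Par (Z := L.Gm) L.pj where
  surj := L.pj_surj
  closed y := by
    obtain ⟨g, rfl⟩ := L.pj_surj y
    have : (L.pj ⁻¹' {L.pj g} : Set G) = (fun u => u⁻¹ * g) ⁻¹' (L.Γ : Set G) := by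
      ext u
      exact L.pj_eq
    exact this ▸ (L.closed.preimage (by fun_prop) : IsClosed ((fun u : G => u⁻¹ * g) ⁻¹' _))
  par z z' w h := by
    refine ⟨(show G from w) * ((show G from z)⁻¹ * (show G from z')),
      L.pj_mul w ⟨_, L.pj_eq.mp h⟩, ?_⟩
    rw [L.dist_Gm, L.dist_Gm]
    congr 1
    group

instance : MetricSpace L.B :=
  L.par.metric.replaceTopology (U := inferInstanceAs (TopologicalSpace (G ⧸ L.Γ))) (by
    let _ := L.par.metric
    have h1 := L.par.subm.isOpenQuotientMap.isQuotientMap.eq_coinduced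
    exact (QuotientGroup.isQuotientMap_mk L.Γ).eq_coinduced.trans h1.symm)

theorem subm : Subm (Z := L.Gm) L.pj := ⟨L.par.surj, L.par.le, L.par.lift⟩

instance : ProperSpace L.B := L.subm.properSpace

instance : MeasurableSpace L.B := borel _

instance : BorelSpace L.B := ⟨rfl⟩

instance : MulAction G L.B := inferInstanceAs (MulAction G (G ⧸ L.Γ))

instance : ContinuousSMul G L.B := inferInstanceAs (ContinuousSMul G (G ⧸ L.Γ))

theorem smul_pj (g h : G) : g • L.pj h = L.pj (g * h) := rfl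

theorem continuous_pj : Continuous L.pj := QuotientGroup.continuous_mk

theorem isOpenMap_pj : IsOpenMap L.pj := QuotientGroup.isOpenMap_coe

theorem dist_pj_le (g h : G) : dist (L.pj g) (L.pj h) ≤ L.len (g * h⁻¹) := L.subm.le g h

theorem exists_lift (g : G) (b : L.B) : ∃ h, L.pj h = b ∧ L.len (g * h⁻¹) = dist (L.pj g) b :=
  L.subm.lift g b

/-- Two points differ by an element whose norm is their distance. -/
theorem exists_smul (b b' : L.B) : ∃ g : G, g • b = b' ∧ L.len g = dist b b' := by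
  obtain ⟨u, rfl⟩ := L.pj_surj b
  obtain ⟨h, rfl, e⟩ := L.exists_lift u b'
  exact ⟨h * u⁻¹, by rw [smul_pj, inv_mul_cancel_right], by rw [L.swap, e]⟩

theorem dist_smul_self (g : G) (b : L.B) : dist (g • b) b ≤ L.len g := by
  obtain ⟨u, rfl⟩ := L.pj_surj b
  simpa [smul_pj] using L.dist_pj_le (g * u) u

theorem dist_smul (g : G) (b b' : L.B) :
    dist (g • b) (g • b') ≤ Real.exp (2 * L.len g) * dist b b' := by
  obtain ⟨u, rfl, e⟩ := L.exists_smul b b'
  have h := L.dist_smul_self (g * u * g⁻¹) (g • b)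
  rw [smul_smul, inv_mul_cancel_right, mul_smul, dist_comm] at h
  rw [← e]
  exact h.trans (L.conj g u)

/-- The base point. -/
def o : L.B := L.pj 1

instance : Nonempty L.B := ⟨L.o⟩

theorem smul_o (g : G) : g • L.o = L.pj g := by rw [o, smul_pj, mul_one]

theorem smul_o_eq {g : G} : g • L.o = L.o ↔ g ∈ L.Γ := by
  rw [smul_o, o, eq_comm, pj_eq, inv_one, one_mul]

/-- The height. -/
def ht (b : L.B) : ℝ := dist b L.o

theorem ht_nonneg (b : L.B) : 0 ≤ L.ht b := dist_nonneg

theorem ht_o : L.ht L.o = 0 := dist_self _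

theorem continuous_ht : Continuous L.ht := continuous_id.dist continuous_const

theorem measurable_ht : Measurable L.ht := L.continuous_ht.measurable

theorem ht_pj_le (g : G) : L.ht (L.pj g) ≤ L.len g := by simpa [ht, o] using L.dist_pj_le g 1

theorem ht_le (b b' : L.B) : L.ht b ≤ L.ht b' + dist b b' :=
  (dist_triangle b b' L.o).trans_eq (add_comm _ _)

theorem ht_smul (g : G) (b : L.B) : L.ht (g • b) ≤ L.ht b + L.len g :=
  (L.ht_le _ b).trans (add_le_add le_rfl (L.dist_smul_self g b))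

theorem isCompact_ht (R : ℝ) : IsCompact {b | L.ht b ≤ R} := isCompact_closedBall L.o R

/-- The injectivity radius decays at most exponentially in the height. -/
theorem inj : ∃ r : ℝ, 0 < r ∧ ∀ (g : G) (b : L.B), g • b = b →
    L.len g < r * Real.exp (-2 * L.ht b) → g = 1 := by
  obtain ⟨r, hr, h⟩ := L.exists_sys
  refine ⟨r, hr, fun g b hb hl => ?_⟩
  obtain ⟨u, rfl, e⟩ := L.exists_smul L.o b
  rw [dist_comm] at e
  have h1 : u⁻¹ * g * u ∈ L.Γ := by
    rw [← smul_o_eq, mul_smul, mul_smul, hb, inv_smul_smul]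
  have h2 := L.conj u⁻¹ g
  rw [inv_inv, L.inv, e] at h2
  have h3 : Real.exp (2 * L.ht (u • L.o)) * L.len g < r := by
    have := mul_lt_mul_of_pos_left hl (Real.exp_pos (2 * L.ht (u • L.o)))
    rwa [mul_left_comm, ← Real.exp_add, neg_mul, add_neg_cancel, Real.exp_zero, mul_one] at this
  have h4 := h _ h1 (h2.trans_lt h3)
  calc g = u * (u⁻¹ * g * u) * u⁻¹ := by group
    _ = 1 := by rw [h4]; group

variable [MeasurableSpace G] [BorelSpace G]

theorem measurable_pj : Measurable L.pj := L.continuous_pj.measurable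

theorem exists_sec : ∃ s : L.B → G, Measurable s ∧ (∀ b, L.pj (s b) = b) ∧
    ∀ b, L.len (s b) = L.ht b := by
  have := L.polish
  obtain ⟨e, he⟩ := MeasureTheory.exists_measurableEmbedding_real G
  let Ω : Set G := {g | L.len g = L.ht (L.pj g)}
  have hΩ : MeasurableSet Ω :=
    (isClosed_eq L.cont (L.continuous_ht.comp L.continuous_pj)).measurableSet
  let F : Set G := Ω ∩ ⋂ γ : L.Γ, {g | g * γ ∈ Ω → e g ≤ e (g * γ)}
  have hF : MeasurableSet F := by
    refine hΩ.inter (MeasurableSet.iInter fun γ => ?_)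
    have hm : Measurable fun g : G => g * γ := (continuous_mul_const _).measurable
    exact MeasurableSet.imp (hm hΩ) (measurableSet_le he.measurable (he.measurable.comp hm))
  have hex : ∀ b, ∃ g ∈ F, L.pj g = b := by
    intro b
    obtain ⟨u, rfl, hu⟩ := L.exists_smul L.o b
    rw [dist_comm, smul_o] at hu
    have hfin : {γ : L.Γ | u * γ ∈ Ω}.Finite := (L.fin' u 1 (L.len u)).subset fun γ hγ => by
      have h1 : L.len (u * γ) = L.ht (L.pj (u * γ)) := hγ
      rw [pj_mul] at h1
      show L.len (u * γ * 1) ≤ L.len u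
      rw [mul_one, h1]
      exact L.ht_pj_le u
    obtain ⟨γ, hγ, hmin⟩ := exists_min_image _ (fun γ : L.Γ => e (u * γ)) hfin
      ⟨1, by simpa [Ω, ht] using hu⟩
    refine ⟨u * γ, ⟨hγ, mem_iInter.mpr fun δ hδ => ?_⟩, by rw [pj_mul, smul_o]⟩
    have := hmin (γ * δ) (by simpa [mul_assoc] using hδ)
    simpa [mul_assoc] using this
  have hinj : InjOn L.pj F := by
    intro g hg h hh hgh
    have h1 := mem_iInter.mp hg.2 ⟨_, L.pj_eq.mp hgh⟩ (by simpa using hh.1)
    have h2 := mem_iInter.mp hh.2 ⟨_, L.pj_eq.mp hgh.symm⟩ (by simpa using hg.1)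
    simp only [mul_inv_cancel_left] at h1 h2
    exact he.injective (le_antisymm h1 h2)
  choose s hs hs' using hex
  refine ⟨s, fun A hA => ?_, hs', fun b => by rw [(hs b).1, hs']⟩
  have : s ⁻¹' A = L.pj '' (A ∩ F) := by
    ext b
    constructor
    · exact fun hb => ⟨s b, ⟨hb, hs b⟩, hs' b⟩
    · rintro ⟨g, ⟨h1, h2⟩, rfl⟩
      show s (L.pj g) ∈ A
      rwa [hinj (hs _) h2 (hs' _)]
  rw [this]
  exact (hA.inter hF).image_of_continuousOn_injOn L.continuous_pj.continuousOn
    (hinj.mono inter_subset_right)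

/-- A Borel section by elements of least norm. -/
def sec : L.B → G := L.exists_sec.choose

theorem measurable_sec : Measurable L.sec := L.exists_sec.choose_spec.1

theorem pj_sec (b : L.B) : L.pj (L.sec b) = b := L.exists_sec.choose_spec.2.1 b

theorem len_sec (b : L.B) : L.len (L.sec b) = L.ht b := L.exists_sec.choose_spec.2.2 b

theorem sec_o : L.sec L.o = 1 := L.eq_one _ (by rw [len_sec, ht_o])

theorem sec_smul_o (b : L.B) : L.sec b • L.o = b := by rw [smul_o, pj_sec]

/-- The lattice part of an element of the group. -/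
def fr (g : G) : L.Γ := ⟨(L.sec (L.pj g))⁻¹ * g, L.pj_eq.mp (L.pj_sec _)⟩

theorem sec_mul_fr (g : G) : L.sec (L.pj g) * L.fr g = g := mul_inv_cancel_left _ _

theorem fr_mul (g : G) (γ : L.Γ) : L.fr (g * γ) = L.fr g * γ :=
  Subtype.ext (by simp [fr, pj_mul, mul_assoc])

theorem fr_sec (b : L.B) : L.fr (L.sec b) = 1 := Subtype.ext (by simp [fr, pj_sec])

theorem fr_coe (γ : L.Γ) : L.fr γ = γ := by
  have := L.fr_mul (L.sec L.o) γ
  rwa [fr_sec, sec_o, one_mul, one_mul] at this

theorem len_fr (g : G) : L.len (L.fr g) ≤ L.ht (L.pj g) + L.len g := by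
  have := L.mul (L.sec (L.pj g))⁻¹ g
  rwa [L.inv, len_sec] at this

theorem measurable_fr : Measurable L.fr := by
  have := L.polish
  exact ((L.measurable_sec.comp L.measurable_pj).inv.mul measurable_id).subtype_mk

/-- The return cocycle. -/
def c (g : G) (b : L.B) : L.Γ := L.fr (g * L.sec b)

theorem pj_mul_sec (g : G) (b : L.B) : L.pj (g * L.sec b) = g • b := by rw [← smul_pj, pj_sec]

theorem sec_mul_c (g : G) (b : L.B) : L.sec (g • b) * L.c g b = g * L.sec b := by
  rw [← pj_mul_sec, c, sec_mul_fr]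

theorem coe_c (g : G) (b : L.B) : (L.c g b : G) = (L.sec (g • b))⁻¹ * g * L.sec b := by
  rw [mul_assoc, ← sec_mul_c, inv_mul_cancel_left]

theorem c_one (b : L.B) : L.c 1 b = 1 := by rw [c, one_mul, fr_sec]

theorem c_mul (g h : G) (b : L.B) : L.c (g * h) b = L.c g (h • b) * L.c h b :=
  Subtype.ext (by simp [coe_c, mul_smul, mul_assoc])

theorem c_inv (g : G) (b : L.B) : L.c g⁻¹ (g • b) = (L.c g b)⁻¹ := by
  rw [eq_inv_iff_mul_eq_one, ← c_mul, inv_mul_cancel, c_one]

theorem c_coe (γ : L.Γ) : L.c γ L.o = γ := by rw [c, sec_o, mul_one, fr_coe]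

theorem fr_smul (g h : G) : L.fr (g * h) = L.c g (L.pj h) * L.fr h := by
  rw [c, ← fr_mul, mul_assoc, sec_mul_fr]

theorem len_c (g : G) (b : L.B) : L.len (L.c g b) ≤ L.ht (g • b) + L.len g + L.ht b := by
  have := L.mul3 (L.sec (g • b))⁻¹ g (L.sec b)
  rwa [L.inv, len_sec, len_sec, ← coe_c] at this

theorem len_c' (g : G) (b : L.B) : L.len (L.c g b) ≤ 2 * (L.len g + L.ht b) := by
  linarith [L.len_c g b, L.ht_smul g b]

theorem measurable_c : Measurable fun z : G × L.B => L.c z.1 z.2 := by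
  have := L.polish
  exact L.measurable_fr.comp (measurable_fst.mul (L.measurable_sec.comp measurable_snd))

instance : DiscreteMeasurableSpace L.Γ := ⟨fun s => (isOpen_discrete s).measurableSet⟩

end Lat

end Pool.Agent.P.MP_d483fb_an.Z
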