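import Pool.Agent.P.MP_d483fb_an.Z.Su.Len

/-! The Finsler norm: chart, properness, covering numbers. -/

open scoped Matrix Matrix.Norms.Operator Topology
open NormedSpace Filter Set

set_option linter.unusedSectionVars false

noncomputable section

namespace Pool.Agent.P.MP_d483fb_an.Z

theorem Len2_entry_le {n : ℕ} (A : Mat n) (i j : Fin n) : |A i j| ≤ ‖A‖ := by
  rw [Matrix.linfty_opNorm_def]
  have h1 : ‖A i j‖₊ ≤ ∑ j, ‖A i j‖₊ :=
    Finset.single_le_sum (f := fun j => ‖A i j‖₊) (fun _ _ => bot_le) (Finset.mem_univ j)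
  have h2 : (∑ j, ‖A i j‖₊) ≤ Finset.univ.sup fun i => ∑ j, ‖A i j‖₊ :=
    Finset.le_sup (f := fun i => ∑ j, ‖A i j‖₊) (Finset.mem_univ i)
  exact_mod_cast h1.trans h2

theorem Len2_norm_le {n : ℕ} (A : Mat n) {ε : ℝ} (hε : 0 ≤ ε) (h : ∀ i j, |A i j| ≤ ε) :
    ‖A‖ ≤ n * ε := by
  rw [Matrix.linfty_opNorm_def]
  lift ε to NNReal using hε
  have : (Finset.univ.sup fun i => ∑ j, ‖A i j‖₊) ≤ (n : NNReal) * ε := by
    refine Finset.sup_le fun i _ => ?_
    calc ∑ j, ‖A i j‖₊ ≤ ∑ _j : Fin n, ε := Finset.sum_le_sum fun j _ => h i j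
      _ = _ := by simp
  exact_mod_cast this

theorem Len2_exp_le {x : ℝ} (h0 : 0 ≤ x) (h : x ≤ 1 / 2) : Real.exp x - 1 ≤ 3 / 2 * x := by
  have h1 := Real.abs_exp_sub_one_sub_id_le (x := x) (by rw [abs_of_nonneg h0]; linarith)
  have h2 := (abs_le.1 h1).2
  nlinarith

theorem Len2_exp_lip {A : Type} [NormedRing A] [NormedAlgebra ℝ A] [CompleteSpace A] :
    ∃ c : ℝ, 0 < c ∧ ∀ X Y : A, ‖X‖ < c → ‖Y‖ < c →
      ‖exp X * exp (-Y) - 1‖ ≤ 3 / 2 * ‖X - Y‖ ∧ ‖X - Y‖ ≤ 2 * ‖exp X * exp (-Y) - 1‖ := by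
  have h1 := (exp_strict_refl (A := A)).isLittleO.def (c := 1 / 5) (by norm_num)
  obtain ⟨c1, hc1, h1⟩ := Metric.eventually_nhds_iff.1 h1
  have h2 : ∀ᶠ X in 𝓝 (0 : A), ‖exp X - 1‖ < 1 / 5 := by
    have h : Continuous fun X : A => ‖exp X - 1‖ := (exp_cont.sub continuous_const).norm
    exact h.continuousAt.eventually_lt continuousAt_const (by simp)
  obtain ⟨c2, hc2, h2⟩ := Metric.eventually_nhds_iff.1 h2
  refine ⟨min c1 c2, lt_min hc1 hc2, fun X Y hX hY => ?_⟩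
  have h3 : ‖exp X - exp Y - (X - Y)‖ ≤ 1 / 5 * ‖X - Y‖ := by
    have := h1 (y := (X, Y)) (by
      rw [Prod.dist_eq, dist_zero_right, dist_zero_right]
      exact max_lt (hX.trans_le (min_le_left _ _)) (hY.trans_le (min_le_left _ _)))
    simpa using this
  have h4 : ‖exp Y - 1‖ < 1 / 5 := h2 (by simpa using hY.trans_le (min_le_right _ _))
  have h5 : ‖exp (-Y) - 1‖ < 1 / 5 := h2 (by simpa using hY.trans_le (min_le_right _ _))
  have e1 : exp X * exp (-Y) - 1 = (exp X - exp Y) + (exp X - exp Y) * (exp (-Y) - 1) := by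
    rw [← exp_mul_neg Y]
    simp only [mul_sub, sub_mul, exp_mul_neg, mul_one]
    abel
  have e2 : exp X - exp Y =
      (exp X * exp (-Y) - 1) + (exp X * exp (-Y) - 1) * (exp Y - 1) := by
    simp only [mul_sub, sub_mul, mul_assoc, exp_neg_mul, mul_one, one_mul]
    abel
  have n1 := norm_sub_norm_le (exp X - exp Y) (X - Y)
  have n2 := norm_sub_norm_le (X - Y) (exp X - exp Y)
  rw [norm_sub_rev (X - Y)] at n2
  have n3 : ‖exp X * exp (-Y) - 1‖ ≤ ‖exp X - exp Y‖ + ‖exp X - exp Y‖ * (1 / 5) := by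
    rw [e1]
    exact (norm_add_le _ _).trans (add_le_add le_rfl ((norm_mul_le _ _).trans
      (mul_le_mul_of_nonneg_left h5.le (norm_nonneg _))))
  have n4 : ‖exp X - exp Y‖ ≤
      ‖exp X * exp (-Y) - 1‖ + ‖exp X * exp (-Y) - 1‖ * (1 / 5) := by
    conv_lhs => rw [e2]
    exact (norm_add_le _ _).trans (add_le_add le_rfl ((norm_mul_le _ _).trans
      (mul_le_mul_of_nonneg_left h4.le (norm_nonneg _))))
  have n5 := norm_nonneg (X - Y)
  have n6 := norm_nonneg (exp X * exp (-Y) - 1)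
  constructor <;> linarith

/-- Nets in the unit ball of the matrices. -/
theorem Len2_net {n : ℕ} (S : Set (Mat n)) (hS : ∀ X ∈ S, ‖X‖ ≤ 1) {η : ℝ} (h0 : 0 < η)
    (h1 : η ≤ 1) : ∃ F : Finset (Mat n), (∀ Y ∈ F, Y ∈ S) ∧ (F.card : ℝ) ≤ (5 / η) ^ (n * n) ∧
      ∀ X ∈ S, ∃ Y ∈ F, ‖X - Y‖ ≤ n * η := by
  classical
  let φ : Mat n → Fin n × Fin n → ℤ := fun X p => ⌊X p.1 p.2 / η⌋
  let N : ℕ := ⌈1 / η⌉₊
  let B : Finset (Fin n × Fin n → ℤ) := Fintype.piFinset fun _ => Finset.Icc (-(N : ℤ)) N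
  have hN : 1 / η ≤ N := Nat.le_ceil _
  have hN' : (N : ℝ) < 1 / η + 1 := Nat.ceil_lt_add_one (by positivity)
  have hB : ∀ X ∈ S, φ X ∈ B := by
    intro X hX
    refine Fintype.mem_piFinset.2 fun p => Finset.mem_Icc.2 ?_
    have h2 := abs_le.1 ((Len2_entry_le X p.1 p.2).trans (hS X hX))
    have h3 : X p.1 p.2 / η ≤ 1 / η := div_le_div_of_nonneg_right h2.2 h0.le
    have h4 : -1 / η ≤ X p.1 p.2 / η := div_le_div_of_nonneg_right h2.1 h0.le
    rw [neg_div] at h4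
    constructor
    · refine Int.le_floor.2 ?_
      push_cast
      linarith
    · have h5 : (⌊X p.1 p.2 / η⌋ : ℝ) ≤ N := (Int.floor_le _).trans (h3.trans hN)
      exact_mod_cast h5
  refine ⟨(B.filter fun m => m ∈ φ '' S).image (Function.invFunOn φ S), ?_, ?_, ?_⟩
  · intro Y hY
    obtain ⟨m, hm, rfl⟩ := Finset.mem_image.1 hY
    exact Function.invFunOn_mem (Finset.mem_filter.1 hm).2
  · have h2 : B.card = (2 * N + 1) ^ (n * n) := by
      have h3 : (Finset.Icc (-(N : ℤ)) N).card = 2 * N + 1 := by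
        rw [Int.card_Icc]
        omega
      simp [B, h3]
    have h3 : ((B.filter fun m => m ∈ φ '' S).image (Function.invFunOn φ S)).card ≤ B.card :=
      Finset.card_image_le.trans (Finset.card_filter_le _ _)
    have h4 : (1 : ℝ) ≤ 1 / η := by rw [le_div_iff₀ h0]; linarith
    have h5 : ((2 * N + 1 : ℕ) : ℝ) ≤ 5 / η := by
      have : 5 / η = 5 * (1 / η) := by ring
      push_cast
      linarith
    calc _ ≤ (B.card : ℝ) := by exact_mod_cast h3
      _ = ((2 * N + 1 : ℕ) : ℝ) ^ (n * n) := by rw [h2]; push_cast; rfl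
      _ ≤ _ := pow_le_pow_left₀ (by positivity) h5 _
  · intro X hX
    have hm : φ X ∈ φ '' S := mem_image_of_mem φ hX
    refine ⟨_, Finset.mem_image_of_mem _ (Finset.mem_filter.2 ⟨hB X hX, hm⟩), ?_⟩
    refine Len2_norm_le _ h0.le fun i j => ?_
    have h2 : φ (Function.invFunOn φ S (φ X)) = φ X := Function.invFunOn_eq hm
    have h3 := Int.abs_sub_lt_one_of_floor_eq_floor (congrFun h2 (i, j)).symm
    rw [← sub_div, abs_div, abs_of_pos h0, div_lt_one h0] at h3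
    exact h3.le

namespace ExpData

variable {G : Type} [Group G] [TopologicalSpace G] [IsTopologicalGroup G] [ConnectedSpace G] {n : ℕ}
  (D : ExpData G n)

theorem Len2_word (g : G) {r : ℝ} (h : D.len g < r) :
    ∃ l : List (Mat n), (∀ X ∈ l, X ∈ D.g) ∧ (l.map D.ex).prod = g ∧ (l.map norm).sum < r := by
  have hne : ∃ l : List (Mat n), (∀ X ∈ l, X ∈ D.g) ∧ (l.map D.ex).prod = g := by
    refine D.ex_induction
      (p := fun g => ∃ l : List (Mat n), (∀ X ∈ l, X ∈ D.g) ∧ (l.map D.ex).prod = g) one_pos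
      ⟨[], by simp, by simp⟩ ?_ g
    rintro X hX - x ⟨l, hl, rfl⟩
    exact ⟨X :: l, by simpa [hX] using hl, by simp⟩
  obtain ⟨l0, h1, h2⟩ := hne
  obtain ⟨_, ⟨l, h3, h4, rfl⟩, h5⟩ := exists_lt_of_csInf_lt (by exact ⟨_, l0, h1, h2, rfl⟩) h
  exact ⟨l, h3, h4, h5⟩

theorem Len2_prod_le (l : List (Mat n)) (hl : ∀ X ∈ l, X ∈ D.g) :
    D.len (l.map D.ex).prod ≤ (l.map norm).sum := by
  induction l with
  | nil => simp [D.len_one]
  | cons X l ih =>
    simp only [List.map_cons, List.prod_cons, List.sum_cons]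
    exact (D.len_mul _ _).trans (add_le_add (D.len_ex_le (hl X List.mem_cons_self))
      (ih fun Y hY => hl Y (List.mem_cons_of_mem _ hY)))

theorem Len2_chart : ∃ r : ℝ, 0 < r ∧ r ≤ 1 / 2 ∧
    ∀ g, D.len g < r → D.lg g ∈ D.g ∧ D.ex (D.lg g) = g ∧ ‖D.lg g‖ ≤ 3 * D.len g ∧
      D.len g ≤ 2 * ‖D.ρ g - 1‖ := by
  have := D.t2Space
  obtain ⟨r1, hr1, U, hU, -, hU1, hU2⟩ := D.chart
  obtain ⟨c, hc, hlog⟩ := Metric.eventually_nhds_iff.1 (Ex1_norm_mlog (A := Mat n))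
  set r := min (1 / 2) (min (c / 2) (r1 / 6)) with hr
  have r0 : 0 < r := by positivity
  have ra : r ≤ 1 / 2 := min_le_left _ _
  have rb : r ≤ c / 2 := (min_le_right _ _).trans (min_le_left _ _)
  have rc : r ≤ r1 / 6 := (min_le_right _ _).trans (min_le_right _ _)
  have hlg : ∀ g, D.len g < r → ‖D.lg g‖ ≤ 2 * ‖D.ρ g - 1‖ ∧ ‖D.lg g‖ ≤ 3 * D.len g := by
    intro g hg
    have h0 := D.len_nonneg g
    have h1 := (D.norm_ρ_sub_one g).trans (Len2_exp_le h0 (by linarith))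
    have h2 : ‖D.lg g‖ ≤ 2 * ‖D.ρ g - 1‖ :=
      (hlog (y := D.ρ g) (by rw [dist_eq_norm]; linarith)).1
    exact ⟨h2, by linarith⟩
  have hK : IsClosed (D.ex '' {X | X ∈ D.g ∧ ‖X‖ ≤ r1 / 2}) := (D.ex_ball_compact _).isClosed
  have hV : IsOpen (U ∩ {g | D.len g < r}) :=
    hU.inter (isOpen_lt D.continuous_len continuous_const)
  have hcl : closure (U ∩ {g | D.len g < r}) ⊆ U := by
    refine (closure_minimal (fun g hg => ?_) hK).trans ?_
    · have h1 : D.len g < r := hg.2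
      exact ⟨D.lg g, ⟨(hU1 g hg.1).1, by linarith [(hlg g h1).2]⟩, (hU1 g hg.1).2.2⟩
    · rintro _ ⟨X, hX, rfl⟩
      exact (hU2 X hX.1 (by linarith [hX.2])).1
  have key : ∀ l : List (Mat n), (∀ X ∈ l, X ∈ D.g) → (l.map norm).sum < r →
      (l.map D.ex).prod ∈ U := by
    intro l
    induction l with
    | nil =>
      intro _ _
      have h := (hU2 0 D.g.zero_mem (by simpa using hr1)).1
      simpa [D.ex_zero] using h
    | cons X l ih =>
      intro hl hs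
      simp only [List.map_cons, List.prod_cons, List.sum_cons] at hs ⊢
      have hX := hl X List.mem_cons_self
      have hl' : ∀ Y ∈ l, Y ∈ D.g := fun Y hY => hl Y (List.mem_cons_of_mem _ hY)
      have h1 := D.Len2_prod_le l hl'
      have h2 := ih hl' (by linarith [norm_nonneg X])
      set x := (l.map D.ex).prod
      have hf : Continuous fun t : ℝ => D.ex (t • X) * x := (D.ex_smul_cont hX).mul_const x
      have hlen : ∀ t ∈ Icc (0 : ℝ) 1, D.len (D.ex (t • X) * x) < r := by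
        intro t ht
        have h3 := D.len_mul (D.ex (t • X)) x
        have h4 := D.len_ex_le (D.g.smul_mem t hX)
        rw [norm_smul, Real.norm_eq_abs, abs_of_nonneg ht.1] at h4
        nlinarith [ht.1, ht.2, norm_nonneg X]
      have hp := (isPreconnected_Icc (a := (0 : ℝ)) (b := 1)).image _ hf.continuousOn
      have h5 := hp.subset_of_closure_inter_subset hV
        ⟨_, ⟨0, left_mem_Icc.2 zero_le_one, rfl⟩, by simpa [D.ex_zero] using h2,
          hlen 0 (left_mem_Icc.2 zero_le_one)⟩ (by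
          rintro _ ⟨hg, t, ht, rfl⟩
          exact ⟨hcl hg, hlen t ht⟩)
      simpa using (h5 ⟨1, right_mem_Icc.2 zero_le_one, rfl⟩).1
  refine ⟨r, r0, ra, fun g hg => ?_⟩
  obtain ⟨l, h1, h2, h3⟩ := D.Len2_word g hg
  have h4 := hU1 g (h2 ▸ key l h1 h3)
  refine ⟨h4.1, h4.2.2, (hlg g hg).2, ?_⟩
  have h5 := D.len_ex_le h4.1
  rw [h4.2.2] at h5
  exact h5.trans (hlg g hg).1

/-- Short elements lie in the exponential chart. -/
theorem len_chart : ∃ r : ℝ, 0 < r ∧ r ≤ 1 ∧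
    (∀ g, D.len g < r → D.lg g ∈ D.g ∧ D.ex (D.lg g) = g ∧ ‖D.lg g‖ ≤ 3 * D.len g ∧
      D.len g ≤ 2 * ‖D.ρ g - 1‖) ∧
    ∀ X ∈ D.g, ∀ Y ∈ D.g, ‖X‖ < r → ‖Y‖ < r → D.lg (D.ex X) = X ∧
      D.len (D.ex X * (D.ex Y)⁻¹) ≤ 3 * ‖X - Y‖ ∧ ‖X - Y‖ ≤ 3 * D.len (D.ex X * (D.ex Y)⁻¹) := by
  obtain ⟨r0, h0, h1, h⟩ := D.Len2_chart
  obtain ⟨r1, hr1, U, -, -, -, hU⟩ := D.chart
  obtain ⟨c, hc, hlip⟩ := Len2_exp_lip (A := Mat n)
  set r := min (r0 / 2) (min c r1) with hr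
  have ra : r ≤ r0 / 2 := min_le_left _ _
  have rb : r ≤ c := (min_le_right _ _).trans (min_le_left _ _)
  have rc : r ≤ r1 := (min_le_right _ _).trans (min_le_right _ _)
  refine ⟨r, by positivity, by linarith, fun g hg => h g (by linarith), ?_⟩
  intro X hX Y hY hX' hY'
  have h2 := D.len_mul (D.ex X) (D.ex Y)⁻¹
  rw [D.len_inv] at h2
  have h3 : D.len (D.ex X * (D.ex Y)⁻¹) < r0 := by
    linarith [D.len_ex_le hX, D.len_ex_le hY]
  have h4 := (h _ h3).2.2.2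
  have h5 := (D.norm_ρ_sub_one _).trans (Len2_exp_le (D.len_nonneg _) (h3.le.trans h1))
  have h6 : ‖D.ρ (D.ex X * (D.ex Y)⁻¹) - 1‖ ≤ 3 / 2 * ‖X - Y‖ ∧
      ‖X - Y‖ ≤ 2 * ‖D.ρ (D.ex X * (D.ex Y)⁻¹) - 1‖ := by
    rw [map_mul, D.ρ_ex X hX, D.ρ_ex_inv hY]
    exact hlip X Y (by linarith) (by linarith)
  obtain ⟨h6, h7⟩ := h6
  exact ⟨(hU X hX (by linarith)).2, by linarith, by linarith⟩

theorem len_eq_zero (g : G) (h : D.len g = 0) : g = 1 := by
  obtain ⟨r, h0, -, h1⟩ := D.Len2_chart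
  obtain ⟨-, h2, h3, -⟩ := h1 g (by rwa [h])
  rw [h, mul_zero, norm_le_zero_iff] at h3
  rw [← h2, h3, D.ex_zero]

theorem len_cpt (R : ℝ) : IsCompact {g | D.len g ≤ R} := by
  obtain ⟨r, h0, -, h1⟩ := D.Len2_chart
  have hcl : ∀ R : ℝ, IsClosed {g | D.len g ≤ R} := fun R =>
    isClosed_le D.continuous_len continuous_const
  have hs : IsCompact {g | D.len g ≤ r / 2} := by
    refine (D.ex_ball_compact (3 * r)).of_isClosed_subset (hcl _) fun g hg => ?_
    have h2 : D.len g ≤ r / 2 := hg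
    obtain ⟨h3, h4, h5, -⟩ := h1 g (by linarith)
    exact ⟨D.lg g, ⟨h3, by linarith⟩, h4⟩
  have hm : ∀ m : ℕ, IsCompact {g | D.len g ≤ m * (r / 4)} := by
    intro m
    induction m with
    | zero =>
      refine hs.of_isClosed_subset (hcl _) fun g hg => ?_
      simp only [mem_ofPred_eq, Nat.cast_zero, zero_mul] at hg ⊢
      linarith
    | succ m ih =>
      refine ((ih.prod hs).image continuous_mul).of_isClosed_subset (hcl _) fun g hg => ?_
      obtain ⟨u, v, hu, hv, rfl⟩ := D.len_split' g (s := m * (r / 4)) (t := r / 4) (ε := r / 4)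
        (by positivity) (by positivity) (by positivity) (by
          simp only [mem_ofPred_eq, Nat.cast_succ] at hg
          linarith)
      exact ⟨(u, v), ⟨hu, show D.len v ≤ r / 2 by linarith⟩, rfl⟩
  obtain ⟨m, hm'⟩ := exists_nat_ge (R / (r / 4))
  rw [div_le_iff₀ (by positivity)] at hm'
  exact (hm m).of_isClosed_subset (hcl _) fun g hg => le_trans hg hm'

theorem len_split (g : G) (s t : ℝ) (hs : 0 ≤ s) (ht : 0 ≤ t) (h : D.len g ≤ s + t) :
    ∃ u v, D.len u ≤ s ∧ D.len v ≤ t ∧ g = u * v := by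
  have hc : Continuous fun u : G => D.len (u⁻¹ * g) :=
    D.continuous_len.comp (continuous_inv.mul continuous_const)
  obtain ⟨u, hu, hmin⟩ := (D.len_cpt s).exists_isMinOn
    ⟨1, show D.len 1 ≤ s by rwa [D.len_one]⟩ hc.continuousOn
  refine ⟨u, u⁻¹ * g, hu, le_of_forall_pos_le_add fun ε hε => ?_, by simp⟩
  obtain ⟨u', v', hu', hv', rfl⟩ := D.len_split' g hs ht hε h
  have h1 : D.len (u⁻¹ * (u' * v')) ≤ D.len (u'⁻¹ * (u' * v')) := hmin hu'
  rw [inv_mul_cancel_left] at h1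
  exact h1.trans hv'

theorem len_cover : ∃ (C : ℝ) (d : ℕ), ∀ δ : ℝ, 0 < δ → δ ≤ 1 → ∃ F : Finset G,
    (F.card : ℝ) ≤ C / δ ^ d ∧ ∀ g, D.len g ≤ 1 → ∃ f ∈ F, D.len (g * f⁻¹) ≤ δ := by
  classical
  obtain ⟨r, h0, h1, h2, h3⟩ := D.len_chart
  obtain ⟨T, -, hT⟩ := (D.len_cpt 1).elim_nhds_subcover
    (fun f => {g | D.len (g * f⁻¹) < r / 3}) fun f _ => by
      refine (isOpen_lt (D.continuous_len.comp (continuous_id.mul continuous_const))
        continuous_const).mem_nhds ?_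
      change D.len (f * f⁻¹) < r / 3
      rw [mul_inv_cancel, D.len_one]
      positivity
  refine ⟨T.card * (15 * (n + 1)) ^ (n * n), n * n, fun δ hδ hδ1 => ?_⟩
  have hn : (0 : ℝ) ≤ n := Nat.cast_nonneg n
  obtain ⟨F, hF1, hF2, hF3⟩ := Len2_net {X | X ∈ D.g ∧ ‖X‖ < r} (fun X hX => by linarith [hX.2])
    (η := δ / (3 * (n + 1))) (by positivity) (by rw [div_le_one (by positivity)]; linarith)
  refine ⟨(T ×ˢ F).image fun p => D.ex p.2 * p.1, ?_, fun g hg => ?_⟩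
  · have h4 : ((T ×ˢ F).image fun p => D.ex p.2 * p.1).card ≤ T.card * F.card :=
      Finset.card_image_le.trans (Finset.card_product _ _).le
    have h5 : 5 / (δ / (3 * (n + 1))) = 15 * (n + 1) / δ := by
      field_simp
      norm_num
    rw [h5, div_pow] at hF2
    calc _ ≤ (T.card : ℝ) * F.card := by exact_mod_cast h4
      _ ≤ T.card * ((15 * (n + 1)) ^ (n * n) / δ ^ (n * n)) :=
        mul_le_mul_of_nonneg_left hF2 (Nat.cast_nonneg _)
      _ = _ := by rw [mul_div_assoc]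
  · obtain ⟨f, hf, hgf⟩ := mem_iUnion₂.1 (hT hg)
    have h4 : D.len (g * f⁻¹) < r / 3 := hgf
    obtain ⟨h5, h6, h7, -⟩ := h2 _ (h4.trans (by linarith))
    obtain ⟨Y, hY, hXY⟩ := hF3 (D.lg (g * f⁻¹)) ⟨h5, by linarith⟩
    refine ⟨_, Finset.mem_image_of_mem _ (Finset.mk_mem_product hf hY), ?_⟩
    have h8 := (h3 _ h5 Y (hF1 Y hY).1 (by linarith) (hF1 Y hY).2).2.1
    rw [h6] at h8
    have h9 : g * (D.ex Y * f)⁻¹ = g * f⁻¹ * (D.ex Y)⁻¹ := by group
    have h10 : n * (δ / (3 * (n + 1))) ≤ δ / 3 := by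
      rw [← mul_div_assoc, div_le_div_iff₀ (by positivity) (by positivity)]
      nlinarith
    change D.len (g * (D.ex Y * f)⁻¹) ≤ δ
    rw [h9]
    linarith

/-- The norm of a connected group with an exponential chart. -/
def nm : Nm G where
  len := D.len
  one := D.len_one
  inv := D.len_inv
  mul := D.len_mul
  eq_one := D.len_eq_zero
  cont := D.continuous_len
  cpt := D.len_cpt
  conj := D.len_conj
  split := D.len_split
  cover := D.len_cover

/-- The normed group with a discrete subgroup. -/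
def lat (Γ : Subgroup G) [h : DiscreteTopology Γ] : Lat G := { D.nm with Γ := Γ, disc := h }

theorem lat_len (Γ : Subgroup G) [DiscreteTopology Γ] (g : G) : (D.lat Γ).len g = D.len g := rfl

theorem lat_Γ (Γ : Subgroup G) [DiscreteTopology Γ] : (D.lat Γ).Γ = Γ := rfl

end ExpData

end Pool.Agent.P.MP_d483fb_an.Z
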