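import Pool.Agent.P.MP_d483fb_an.Z.Su.Chart
import Pool.Agent.P.MP_d483fb_an.Z.Geo.Defs
import Pool.Agent.P.MP_d483fb_an.Z.Top.Defs
import Pool.Agent.P.MP_d483fb_an.Z.Lie.Std1

/-! The suspension of a smooth action as an input of the normal form theory. -/

open scoped Matrix Matrix.Norms.Operator Topology Manifold
open Filter Set MeasureTheory

set_option linter.unusedSectionVars false

noncomputable section

namespace Pool.Agent.P.MP_d483fb_an.Z

open Os NF

variable {G : Type} [Group G] [TopologicalSpace G] [IsTopologicalGroup G] [ConnectedSpace G]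
  [T2Space G] [MeasurableSpace G] [BorelSpace G] {n k : ℕ}

theorem Emb.pcov {m : ℕ} {M : Type} [MetricSpace M] [CompactSpace M]
    [ChartedSpace (EuclideanSpace ℝ (Fin m)) M] (e : Emb m M) : PCov M :=
  PCov.of_embedding e.smooth.continuous (K := 1) fun p q => by rw [e.dist_eq, one_mul]

/-- The suspension as a measurable skew product. -/
def Lat.skw (L : Lat G) {M : Type} [MeasurableSpace M] [MulAction L.Γ M]
    {α : L.Γ →* Equiv.Perm M} (hα : ∀ γ p, α γ p = γ • p) : Skw L α (L.Sk M) where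
  e := MeasurableEquiv.refl (L.B × M)
  smul g x := Prod.ext rfl (hα (L.c g x.π) x.pt).symm

theorem Lat.skw_π (L : Lat G) {M : Type} [MeasurableSpace M] [MulAction L.Γ M]
    {α : L.Γ →* Equiv.Perm M} (hα : ∀ γ p, α γ p = γ • p) : (L.skw hα).π = Lat.Sk.π := rfl

namespace Std

variable (D : Std G n k)

theorem continuous_a' : Continuous D.a :=
  D.ex_cont.comp_continuous D.dg.continuous_of_finiteDimensional D.dg_mem

theorem len_a : ∃ C : ℝ, 0 ≤ C ∧ ∀ s, D.len (D.a s) ≤ C * ‖s‖ := by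
  obtain ⟨C, h1, h2⟩ := SemilinearMapClass.bound_of_continuous D.dg
    D.dg.continuous_of_finiteDimensional
  exact ⟨C, h1.le, fun s => (D.len_ex_le (D.dg_mem s)).trans (h2 s)⟩

/-- The action of the Cartan subgroup as an ergodic system. -/
def sys {X : Type} [MeasurableSpace X] [MulAction G X] {ν : Measure X} (hi : D.InvA ν)
    (he : D.ErgA ν) : Sys (Euc k) X ν where
  act s x := D.a s • x
  zero x := by rw [D.a_zero, one_smul]
  add s t x := by rw [D.a_add, mul_smul]
  mp := hi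
  erg U hU h := he U hU fun s => EventuallyEq.of_eq (Set.Subset.antisymm (fun x hx => by
    have := h (-s) _ hx
    rwa [D.a_neg, inv_smul_smul] at this) fun x hx => h s x hx)

variable (Γ : Subgroup G) [DiscreteTopology Γ] {M : Type} [MetricSpace M] [CompactSpace M]
  [MeasurableSpace M] [BorelSpace M] [MulAction (D.lat Γ).Γ M] [φ : Fib (D.lat Γ) M]
  {α : (D.lat Γ).Γ →* Equiv.Perm M} {m : ℕ}

/-- A constant that dominates all the constants of the suspension. -/
def suL (M : Type) [MetricSpace M] [MulAction (D.lat Γ).Γ M] [φ : Fib (D.lat Γ) M] : ℝ :=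
  2 + 2 * D.len_a.choose + 2 * (D.lat Γ).K M + φ.S

theorem suL_spec : 2 ≤ D.suL Γ M ∧ 2 * (D.lat Γ).K M ≤ D.suL Γ M ∧ φ.S + 2 ≤ D.suL Γ M ∧
    ∀ s, 2 * D.len (D.a s) ≤ D.suL Γ M * ‖s‖ := by
  obtain ⟨h1, h2⟩ := D.len_a.choose_spec
  have h3 := Lat.one_le_K (L := D.lat Γ) (M := M)
  have h4 := φ.S_nonneg
  unfold suL
  refine ⟨by linarith, by linarith, by linarith, fun s => ?_⟩
  nlinarith [h2 s, norm_nonneg s, mul_nonneg h4 (norm_nonneg s),
    mul_nonneg (zero_le_one.trans h3) (norm_nonneg s)]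

/-- The skew product structure of the action of the Cartan subgroup. -/
def skew (hα : ∀ γ p, α γ p = γ • p) (J : Jets α (fun γ => D.len γ) m)
    {ν : Measure ((D.lat Γ).Sk M)} (hi : D.InvA ν) (he : D.ErgA ν) : Skew (D.sys hi he) J where
  pt := Lat.Sk.pt
  β s x := (D.lat Γ).c (D.a s) x.π
  h x := (D.lat Γ).ht x.π
  L := D.suL Γ M
  L_nonneg := zero_le_two.trans (D.suL_spec Γ).1
  measPt := Lat.measurable_pt
  measβ := Lat.measurable_c' (D.continuous_a'.measurable.comp measurable_fst)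
    (Lat.measurable_π.comp measurable_snd)
  measAct := (D.continuous_a'.measurable.comp measurable_fst).smul measurable_snd
  measH := (D.lat Γ).measurable_ht.comp Lat.measurable_π
  β_zero x := by rw [D.a_zero, Lat.c_one]
  β_add s t x := by
    rw [D.a_add, Lat.c_mul]
    rfl
  pt_act s x := (hα _ _).symm
  h_nonneg x := (D.lat Γ).ht_nonneg _
  h_lip s x := by
    obtain ⟨h1, -, -, h2⟩ := D.suL_spec Γ (M := M)
    have h3 := (D.lat Γ).ht_smul (D.a s) x.π
    rw [ExpData.lat_len] at h3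
    show (D.lat Γ).ht (D.a s • x.π) ≤ _
    nlinarith [h2 s, D.len_nonneg (D.a s)]
  len_β s x := by
    obtain ⟨h1, -, -, h2⟩ := D.suL_spec Γ (M := M)
    have h3 := (D.lat Γ).len_c' (D.a s) x.π
    rw [ExpData.lat_len, ExpData.lat_len] at h3
    nlinarith [h2 s, mul_le_mul_of_nonneg_right h1 ((D.lat Γ).ht_nonneg x.π)]

/-- The geometry of the suspension. -/
def inp (hα : ∀ γ p, α γ p = γ • p) (J : Jets α (fun γ => D.len γ) m) (hM : PCov M)
    {ν : Measure ((D.lat Γ).Sk M)} (hi : D.InvA ν) (he : D.ErgA ν)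
    [SMulInvariantMeasure G (D.lat Γ).B (ν.map Lat.Sk.π)] :
    Geo.Inp D (D.lat Γ).B (D.skew Γ hα J hi he) where
  π := Lat.Sk.π
  j := (D.lat Γ).j
  c := (D.lat Γ).c
  ht := (D.lat Γ).ht
  r := (D.lat Γ).inj.choose
  act_eq _ _ := rfl
  β_eq _ _ := rfl
  h_eq _ := rfl
  one_le := one_le_two.trans (D.suL_spec Γ).1
  π_cont := Lat.continuous_π
  π_smul _ _ := rfl
  base g := measurePreserving_smul g _
  meas_c := (D.lat Γ).measurable_c
  π_j _ _ := rfl
  pt_j _ _ := rfl
  j_pt _ := rfl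
  c_one := (D.lat Γ).c_one
  c_mul := (D.lat Γ).c_mul
  smul_j g b p := by rw [hα, Lat.smul_j]
  ht_cont := (D.lat Γ).continuous_ht
  r_pos := (D.lat Γ).inj.choose_spec.1
  inj := (D.lat Γ).inj.choose_spec.2
  len_c g b := by
    obtain ⟨h1, -⟩ := D.suL_spec Γ (M := M)
    have h3 := (D.lat Γ).len_c g b
    rw [ExpData.lat_len, ExpData.lat_len] at h3
    show D.len _ ≤ D.suL Γ M * _ + D.suL Γ M * _
    nlinarith [D.len_nonneg g, (D.lat Γ).ht_nonneg b, (D.lat Γ).ht_nonneg (g • b)]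
  dist_smul_self g x := by
    obtain ⟨-, h1, -⟩ := D.suL_spec Γ (M := M)
    refine (Lat.dist_smul_selfX g x).trans (mul_le_mul_of_nonneg_right ?_ (D.len_nonneg g))
    show _ ≤ D.suL Γ M
    linarith [Lat.one_le_K (L := D.lat Γ) (M := M)]
  dist_smul g x y := by
    obtain ⟨-, h1, h2, -⟩ := D.suL_spec Γ (M := M)
    refine (Lat.dist_smulX g x y).trans (mul_le_mul_of_nonneg_right ?_ dist_nonneg)
    show _ ≤ Real.exp (D.suL Γ M * _)
    rw [mul_add, Real.exp_add, mul_one]
    exact mul_le_mul (by linarith [Real.add_one_le_exp (D.suL Γ M)])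
      (Real.exp_le_exp.mpr (mul_le_mul_of_nonneg_right h2 (D.len_nonneg g))) (Real.exp_pos _).le
      (Real.exp_pos _).le
  dist_j b p p' := by
    obtain ⟨-, -, h2, -⟩ := D.suL_spec Γ (M := M)
    refine (Lat.dist_j_le b p p').trans (mul_le_mul_of_nonneg_right (Real.exp_le_exp.mpr
      (mul_le_mul_of_nonneg_right ?_ (by linarith [(D.lat Γ).ht_nonneg b]))) dist_nonneg)
    show _ ≤ D.suL Γ M
    linarith
  near x y := by
    obtain ⟨h1, -, h2, -⟩ := D.suL_spec Γ (M := M)
    obtain ⟨g, p, e, h3, h4⟩ := Lat.exists_smulX x y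
    refine ⟨g, p, e, h3.trans (le_mul_of_one_le_left dist_nonneg (one_le_two.trans h1)), ?_⟩
    rw [dist_comm]
    refine h4.trans (mul_le_mul_of_nonneg_right (Real.exp_le_exp.mpr ?_) dist_nonneg)
    show _ ≤ D.suL Γ M * _
    nlinarith [(D.lat Γ).ht_nonneg x.π]
  cover := Lat.coverX hM

end Std

/-- The action given by a homomorphism. -/
abbrev actOf {Γ M : Type} [Group Γ] (α : Γ →* Equiv.Perm M) : MulAction Γ M :=
  MulAction.compHom M α

/-- The suspension exists; the leaf structure is reduced to a statement on abstract inputs. -/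
theorem Std.susp_of_inp (D : Std G n k) (Γ : Subgroup G) [DiscreteTopology Γ] {m : ℕ} {M : Type}
    [MetricSpace M] [CompactSpace M] [MeasurableSpace M] [BorelSpace M]
    [ChartedSpace (EuclideanSpace ℝ (Fin m)) M]
    (m0 : Measure (D.lat Γ).B) [SMulInvariantMeasure G (D.lat Γ).B m0]
    (e : Emb m M) (α : (D.lat Γ).Γ →* Equiv.Perm M) (J : NF.Jets α (fun γ => D.len γ) m) :
    ∃ (X : Type) (_ : MetricSpace X) (_ : ProperSpace X) (_ : MeasurableSpace X)
      (_ : BorelSpace X) (_ : MulAction G X) (_ : ContinuousSMul G X) (E : Skw (D.lat Γ) α X),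
      Continuous E.π ∧ (∀ K, IsCompact K → IsCompact (E.π ⁻¹' K)) ∧
      ∀ ν : Measure X, ν.map E.π = m0 → D.InvA ν → D.ErgA ν →
        ∃ (S : Sys (Euc k) X ν) (K : Skew S J) (I : Geo.Inp D (D.lat Γ).B K), I.π = E.π ∧
          I.c = (D.lat Γ).c ∧ I.ht = (D.lat Γ).ht := by
  let _ := actOf α
  let _ : Fib (D.lat Γ) M := ⟨J.L0, J.L0_nonneg, J.lip⟩
  have hα : ∀ γ p, α γ p = γ • p := fun _ _ => rfl
  refine ⟨(D.lat Γ).Sk M, inferInstance, inferInstance, inferInstance, inferInstance,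
    inferInstance, inferInstance, (D.lat Γ).skw hα, Lat.continuous_π,
    fun K hK => Lat.isCompact_preimage_π hK, fun ν h0 hi he => ?_⟩
  have : SMulInvariantMeasure G (D.lat Γ).B (ν.map Lat.Sk.π) := by
    rw [show ν.map Lat.Sk.π = m0 from h0]
    infer_instance
  exact ⟨_, _, D.inp Γ hα J e.pcov hi he, rfl, rfl, rfl⟩

end Pool.Agent.P.MP_d483fb_an.Z
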