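import Pool.Agent.P.MP_d483fb_an.Z.Su.Base
import Pool.Agent.P.MP_d483fb_an.Z.Path.Defs

/-! The word length and the base of the random path argument attached to a normed group. -/

open scoped Topology ENNReal Pointwise
open Filter Set Metric MeasureTheory

set_option linter.unusedSectionVars false

noncomputable section

namespace Pool.Agent.P.MP_d483fb_an.Z

variable {G : Type} [Group G] [TopologicalSpace G] [IsTopologicalGroup G] [T2Space G]

/-- The integral length. -/
def Nm.toLen (N : Nm G) : Len G where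
  len g := ⌈N.len g⌉₊
  len_one := by rw [N.one, Nat.ceil_zero]
  len_inv g := by rw [N.inv]
  len_mul g h := (Nat.ceil_mono (N.mul g h)).trans (Nat.ceil_add_le _ _)
  step g n h := by
    obtain ⟨u, v, h1, h2, h3⟩ := N.split g 1 n zero_le_one n.cast_nonneg (by
      have := Nat.ceil_le.mp h
      push_cast at this
      linarith)
    exact ⟨u, v, Nat.ceil_le.mpr (by simpa using h1), Nat.ceil_le.mpr h2, h3⟩
  cpt n := by simpa only [Nat.ceil_le] using N.cpt n
  nhds := by
    have h : {g | N.len g < 1} ∈ 𝓝 (1 : G) :=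
      (isOpen_lt N.cont continuous_const).mem_nhds (by simp [N.one])
    exact mem_of_superset h fun g hg => Nat.ceil_le.mpr (by simpa using (show N.len g < 1 from hg).le)

theorem Nm.toLen_len (N : Nm G) (g : G) : N.toLen.len g = ⌈N.len g⌉₊ := rfl

theorem Nm.le_toLen (N : Nm G) (g : G) : N.len g ≤ N.toLen.len g := Nat.le_ceil _

theorem Nm.toLen_le (N : Nm G) (g : G) : (N.toLen.len g : ℝ) ≤ N.len g + 1 :=
  (Nat.ceil_lt_add_one (N.nonneg g)).le

/-- The base of the random path argument. -/
def Lat.base (L : Lat G) : Base L.toLen L.B where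
  o := L.o
  trans b := by
    obtain ⟨g, rfl⟩ := L.pj_surj b
    exact ⟨g, L.smul_o g⟩
  opn := by simpa only [L.smul_o] using L.isOpenMap_pj
  fin n := ((L.fin n).image Subtype.val).subset fun γ hγ =>
    ⟨⟨γ, L.smul_o_eq.mp hγ.1⟩, Nat.ceil_le.mp hγ.2, rfl⟩

theorem Lat.base_o (L : Lat G) : L.base.o = L.o := rfl

theorem Lat.base_ht (L : Lat G) (b : L.B) : L.base.ht b = ⌈L.ht b⌉₊ := by
  classical
  refine le_antisymm (Nat.find_min' _ ?_) ?_
  · obtain ⟨g, h1, h2⟩ := L.exists_smul L.o b
    exact ⟨g, Nat.ceil_mono (by rw [h2, dist_comm]; exact le_rfl), h1⟩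
  · obtain ⟨g, h1, h2⟩ := Nat.find_spec (p := fun n => ∃ g : G, L.toLen.len g ≤ n ∧ g • L.base.o = b)
      (by obtain ⟨g, hg⟩ := L.base.trans b; exact ⟨_, g, le_rfl, hg⟩)
    refine le_trans (Nat.ceil_mono ?_) h1
    rw [← h2, L.base_o, L.smul_o]
    exact L.ht_pj_le g

end Pool.Agent.P.MP_d483fb_an.Z
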