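import Pool.Agent.P.MP_d483fb_an.Z.Su.CovX
import Pool.Agent.P.MP_d483fb_an.Z.Su.Len2

/-! The base and the suspension in the exponential chart. -/

open scoped Matrix Matrix.Norms.Operator Topology
open NormedSpace Filter Set MeasureTheory

set_option linter.unusedSectionVars false

noncomputable section

namespace Pool.Agent.P.MP_d483fb_an.Z

namespace ExpData

variable {G : Type} [Group G] [TopologicalSpace G] [IsTopologicalGroup G] [ConnectedSpace G]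
  [T2Space G] {n : ℕ} (D : ExpData G n) (Γ : Subgroup G) [DiscreteTopology Γ]

theorem Ad_zero_iff {g : G} {Y : Mat n} : D.Ad g Y = 0 ↔ Y = 0 :=
  ⟨fun h => by rw [← D.Ad_inv_Ad g Y, h, map_zero], fun h => by rw [h, map_zero]⟩

theorem smul_ex {Z : Type} [MulAction G Z] (g : G) {Y : Mat n} (hY : Y ∈ D.g) (z : Z) :
    g • D.ex Y • z = D.ex (D.Ad g Y) • g • z := by
  rw [← D.conj_ex g hY, smul_smul, smul_smul, inv_mul_cancel_right]

theorem len_conj_ex (g : G) {Y : Mat n} (hY : Y ∈ D.g) :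
    D.len (g * D.ex Y * g⁻¹) ≤ ‖D.Ad g Y‖ := by
  rw [D.conj_ex g hY]
  exact D.len_ex_le (D.Ad_mem g hY)

/-- The orbit maps are injective on balls whose radius decays exponentially in the height. -/
theorem inj_lie : ∃ c : ℝ, 0 < c ∧ ∀ (b : (D.lat Γ).B), ∀ Y ∈ D.g, ∀ Y' ∈ D.g,
    ‖Y‖ ≤ c * Real.exp (-2 * (D.lat Γ).ht b) → ‖Y'‖ ≤ c * Real.exp (-2 * (D.lat Γ).ht b) →
    D.ex Y • b = D.ex Y' • b → Y = Y' := by
  obtain ⟨r, hr, h⟩ := (D.lat Γ).inj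
  obtain ⟨r', hr', -, -, h'⟩ := D.len_chart
  refine ⟨min r r' / 3, by positivity, fun b Y hY Y' hY' h1 h2 e => ?_⟩
  have hE := Real.exp_pos (-2 * (D.lat Γ).ht b)
  have hE1 : Real.exp (-2 * (D.lat Γ).ht b) ≤ 1 :=
    Real.exp_le_one_iff.mpr (by linarith [(D.lat Γ).ht_nonneg b])
  have h3 := mul_le_mul_of_nonneg_right (min_le_left r r') hE.le
  have h4 := mul_le_mul (min_le_right r r') hE1 hE.le hr'.le
  have h5 := mul_pos hr hE
  have h6 := h ((D.ex Y')⁻¹ * D.ex Y) b (by rw [mul_smul, e, inv_smul_smul]) (by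
    have h7 := D.len_mul (D.ex Y')⁻¹ (D.ex Y)
    rw [D.len_inv] at h7
    rw [lat_len]
    linarith [D.len_ex_le hY, D.len_ex_le hY'])
  rw [← (h' Y hY Y hY (by linarith) (by linarith)).1, ← inv_mul_eq_one.mp h6,
    (h' Y' hY' Y' hY' (by linarith) (by linarith)).1]

/-- Freeness along a sequence that contracts faster than the injectivity radius. -/
theorem free_of_tendsto {b : (D.lat Γ).B} {Y : Mat n} (hY : Y ∈ D.g) (hb : D.ex Y • b = b)
    {u : ℕ → G} (h : Tendsto (fun i => ‖D.Ad (u i) Y‖ * Real.exp (2 * (D.lat Γ).ht (u i • b)))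
      atTop (𝓝 0)) : Y = 0 := by
  obtain ⟨c, hc, h1⟩ := D.inj_lie Γ
  obtain ⟨i, hi⟩ := (h.eventually (ge_mem_nhds hc)).exists
  refine D.Ad_zero_iff.mp (h1 (u i • b) _ (D.Ad_mem _ hY) 0 (zero_mem _) ?_
    (by rw [norm_zero]; positivity) (by rw [← D.smul_ex _ hY, hb, D.ex_zero, one_smul]))
  rwa [neg_mul, Real.exp_neg, ← div_eq_mul_inv, le_div_iff₀ (Real.exp_pos _)]

/-- Close points of the base differ by a small exponential. -/
theorem exists_ex_base : ∃ r : ℝ, 0 < r ∧ ∀ b b' : (D.lat Γ).B, dist b b' < r →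
    ∃ Y ∈ D.g, b' = D.ex Y • b ∧ ‖Y‖ ≤ 3 * dist b b' := by
  obtain ⟨r, hr, -, h, -⟩ := D.len_chart
  refine ⟨r, hr, fun b b' hb => ?_⟩
  obtain ⟨g, h1, h2⟩ := (D.lat Γ).exists_smul b b'
  rw [lat_len] at h2
  obtain ⟨h3, h4, h5, -⟩ := h g (h2 ▸ hb)
  exact ⟨_, h3, by rw [h4, h1], h2 ▸ h5⟩

theorem dist_ex_base {Y : Mat n} (hY : Y ∈ D.g) (b : (D.lat Γ).B) : dist (D.ex Y • b) b ≤ ‖Y‖ :=
  ((D.lat Γ).dist_smul_self _ b).trans (D.len_ex_le hY)

theorem ht_ex {Y : Mat n} (hY : Y ∈ D.g) (b : (D.lat Γ).B) :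
    (D.lat Γ).ht (D.ex Y • b) ≤ (D.lat Γ).ht b + ‖Y‖ :=
  ((D.lat Γ).ht_smul _ b).trans (add_le_add le_rfl (D.len_ex_le hY))

variable [MeasurableSpace G] [BorelSpace G]

/-- The holonomy of an exponential seen after a displacement. -/
theorem len_hol (g : G) {Y : Mat n} (hY : Y ∈ D.g) (b : (D.lat Γ).B) :
    D.len ((D.lat Γ).c g (D.ex Y • b) * (D.lat Γ).c (D.ex Y) b * ((D.lat Γ).c g b)⁻¹ :
      (D.lat Γ).Γ) ≤ ‖D.Ad g Y‖ + ((D.lat Γ).ht (g • D.ex Y • b) + (D.lat Γ).ht (g • b)) :=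
  (Lat.len_c_conj g _ b).trans (add_le_add (D.len_conj_ex g hY) le_rfl)

variable {M : Type} [MetricSpace M] [CompactSpace M] [MulAction (D.lat Γ).Γ M]
  [φ : Fib (D.lat Γ) M]

theorem dist_ex_le (x : (D.lat Γ).Sk M) {Y : Mat n} (hY : Y ∈ D.g) (p : M) :
    dist x (D.ex Y • (D.lat Γ).j x.π p) ≤
      Real.exp (φ.S * (1 + (D.lat Γ).ht x.π)) * dist x.pt p + (D.lat Γ).K M * ‖Y‖ :=
  (Lat.dist_smul_j_le x _ p).trans (add_le_add le_rfl
    (mul_le_mul_of_nonneg_left (D.len_ex_le hY) (zero_le_one.trans Lat.one_le_K)))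

/-- The same bound after a displacement. -/
theorem dist_smul_ex_le (g : G) (x : (D.lat Γ).Sk M) {Y : Mat n} (hY : Y ∈ D.g) (p : M) :
    dist (g • x) (g • D.ex Y • (D.lat Γ).j x.π p) ≤
      Real.exp (φ.S * (1 + (D.lat Γ).ht (g • x).π)) * dist (g • x).pt ((D.lat Γ).c g x.π • p) +
        (D.lat Γ).K M * ‖D.Ad g Y‖ := by
  rw [D.smul_ex g hY]
  exact D.dist_ex_le Γ (g • x) (D.Ad_mem g hY) _

/-- Close points of the suspension differ by a small exponential and a change in the fibre. -/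
theorem exists_exX : ∃ r : ℝ, 0 < r ∧ ∀ x y : (D.lat Γ).Sk M, dist x y < r →
    ∃ Y ∈ D.g, ∃ p, y = D.ex Y • (D.lat Γ).j x.π p ∧ ‖Y‖ ≤ 3 * dist x y ∧
      dist x.pt p ≤ Real.exp (φ.S * (D.lat Γ).ht x.π) * dist x y := by
  obtain ⟨r, hr, -, h, -⟩ := D.len_chart
  refine ⟨r, hr, fun x y hxy => ?_⟩
  obtain ⟨g, p, h1, h2, h3⟩ := Lat.exists_smulX x y
  rw [lat_len] at h2
  obtain ⟨h4, h5, h6, -⟩ := h g (h2.trans_lt hxy)
  exact ⟨_, h4, p, by rw [h5, h1], by linarith, h3⟩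

/-- Orbits that stay close keep the same relative position. -/
theorem track (a : G) : ∃ c : ℝ, 0 < c ∧ c ≤ 1 ∧ ∀ x y : (D.lat Γ).Sk M,
    dist x y ≤ c * Real.exp (-2 * (D.lat Γ).ht x.π) →
    ∃ Y ∈ D.g, ∃ p, y = D.ex Y • (D.lat Γ).j x.π p ∧ ∀ t : ℕ,
      (∀ i ≤ t, dist (a ^ i • x) (a ^ i • y) ≤ c * Real.exp (-2 * (D.lat Γ).ht (a ^ i • x).π)) →
      ‖D.Ad (a ^ t) Y‖ ≤ 3 * dist (a ^ t • x) (a ^ t • y) ∧
      dist (a ^ t • x).pt ((D.lat Γ).c (a ^ t) x.π • p) ≤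
        Real.exp (φ.S * (D.lat Γ).ht (a ^ t • x).π) * dist (a ^ t • x) (a ^ t • y) := by
  obtain ⟨c₀, hc₀, hinj⟩ := D.inj_lie Γ
  obtain ⟨r, hr, hex⟩ := D.exists_exX Γ (M := M)
  set E := Real.exp (4 * D.len a) with hE
  have hE1 : 1 ≤ E := Real.one_le_exp (by linarith [D.len_nonneg a])
  set c := min (min (r / 2) 1) (c₀ / (3 * E)) with hc
  have hc0 : 0 < c := by positivity
  have hc1 : c ≤ r / 2 := (min_le_left _ _).trans (min_le_left _ _)
  have hc2 : 3 * E * c ≤ c₀ := by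
    rw [← le_div_iff₀' (by positivity)]
    exact min_le_right _ _
  have hlt : ∀ x y : (D.lat Γ).Sk M, dist x y ≤ c * Real.exp (-2 * (D.lat Γ).ht x.π) →
      dist x y < r := fun x y h => by
    have : Real.exp (-2 * (D.lat Γ).ht x.π) ≤ 1 :=
      Real.exp_le_one_iff.mpr (by linarith [(D.lat Γ).ht_nonneg x.π])
    nlinarith
  refine ⟨c, hc0, (min_le_left _ _).trans (min_le_right _ _), fun x y hxy => ?_⟩
  obtain ⟨Y, hY, p, e, h1, h2⟩ := hex x y (hlt x y hxy)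
  refine ⟨Y, hY, p, e, fun t => ?_⟩
  induction t with
  | zero =>
    intro _
    rw [pow_zero, one_smul, one_smul, D.Ad_one, Lat.c_one, one_smul]
    exact ⟨h1, h2⟩
  | succ t ih =>
    intro h
    obtain ⟨h3, -⟩ := ih fun i hi => h i (by omega)
    have h4 := h t (by omega)
    have h5 := h (t + 1) le_rfl
    obtain ⟨Y', hY', p', e', h6, h7⟩ := hex _ _ (hlt _ _ h5)
    have e2 : a ^ (t + 1) • y = D.ex (D.Ad (a ^ (t + 1)) Y) •
        (D.lat Γ).j (a ^ (t + 1) • x).π ((D.lat Γ).c (a ^ (t + 1)) x.π • p) := by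
      rw [e, D.smul_ex _ hY]
      rfl
    have hP := Real.exp_pos (-2 * (D.lat Γ).ht (a ^ (t + 1) • x).π)
    have h8 : ‖D.Ad (a ^ (t + 1)) Y‖ ≤ c₀ * Real.exp (-2 * (D.lat Γ).ht (a ^ (t + 1) • x).π) := by
      have h9 := (D.lat Γ).ht_smul a (a ^ t • x).π
      rw [← Lat.π_smul, smul_smul, ← pow_succ', lat_len] at h9
      have h10 : Real.exp (2 * D.len a) * Real.exp (-2 * (D.lat Γ).ht (a ^ t • x).π) ≤
          E * Real.exp (-2 * (D.lat Γ).ht (a ^ (t + 1) • x).π) := by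
        rw [hE, ← Real.exp_add, ← Real.exp_add]
        exact Real.exp_le_exp.mpr (by linarith)
      rw [pow_succ', D.Ad_mul, ← pow_succ']
      calc _ ≤ Real.exp (2 * D.len a) * (3 * (c * Real.exp (-2 * (D.lat Γ).ht (a ^ t • x).π))) :=
            (D.norm_Ad_len a _).trans (mul_le_mul_of_nonneg_left (by linarith) (Real.exp_pos _).le)
        _ = 3 * c * (Real.exp (2 * D.len a) * Real.exp (-2 * (D.lat Γ).ht (a ^ t • x).π)) := by ring
        _ ≤ 3 * c * (E * Real.exp (-2 * (D.lat Γ).ht (a ^ (t + 1) • x).π)) :=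
            mul_le_mul_of_nonneg_left h10 (by positivity)
        _ ≤ _ := by nlinarith
    have h9 : ‖Y'‖ ≤ c₀ * Real.exp (-2 * (D.lat Γ).ht (a ^ (t + 1) • x).π) := by
      have : 3 * c ≤ c₀ := by nlinarith
      nlinarith
    obtain rfl := hinj _ _ (D.Ad_mem _ hY) _ hY' h8 h9 (congrArg Lat.Sk.π (e2.symm.trans e'))
    obtain rfl := Lat.smul_j_inj (e2.symm.trans e')
    exact ⟨h6, h7⟩

end ExpData

end Pool.Agent.P.MP_d483fb_an.Z
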