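import Pool.Agent.P.MP_d483fb_an.Z.Su.Base

/-! Covering numbers, lattice point counts and measurable cells. -/

open scoped Topology ENNReal Pointwise
open Filter Set Metric MeasureTheory

set_option linter.unusedSectionVars false

noncomputable section

namespace Pool.Agent.P.MP_d483fb_an.Z

/-- Balls around `o` have covering numbers that are exponential in the radius and polynomial in
the scale. -/
def Cov {Z : Type} [PseudoMetricSpace Z] (o : Z) : Prop :=
  ∃ (C : ℝ) (d : ℕ), 0 ≤ C ∧ ∀ R δ : ℝ, 0 ≤ R → 0 < δ → δ ≤ 1 → ∃ F : Finset Z,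
    (F.card : ℝ) ≤ Real.exp (C * (1 + R)) / δ ^ d ∧ ∀ z, dist z o ≤ R → ∃ f ∈ F, dist z f ≤ δ

/-- Polynomial covering numbers. -/
def PCov (M : Type) [PseudoMetricSpace M] : Prop :=
  ∃ (C : ℝ) (d : ℕ), ∀ δ : ℝ, 0 < δ → δ ≤ 1 → ∃ F : Finset M,
    (F.card : ℝ) ≤ C / δ ^ d ∧ ∀ p, ∃ f ∈ F, dist p f ≤ δ

theorem PCov.of_embedding {M E : Type} [PseudoMetricSpace M] [CompactSpace M]
    [NormedAddCommGroup E] [NormedSpace ℝ E] [FiniteDimensional ℝ E] {ι : M → E}
    (hc : Continuous ι) {K : ℝ} (h : ∀ p q, dist p q ≤ K * ‖ι p - ι q‖) : PCov M := by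
  classical
  rcases isEmpty_or_nonempty M with hM | hM
  · exact ⟨0, 0, fun δ _ _ => ⟨∅, by simp, fun p => isEmptyElim p⟩⟩
  let d := Module.finrank ℝ E
  let e : E ≃L[ℝ] (Fin d → ℝ) := (Module.finBasis ℝ E).equivFun.toContinuousLinearEquiv
  obtain ⟨B, hB⟩ := (isCompact_range (e.continuous.comp hc)).isBounded.exists_norm_le
  have hB' : ∀ p i, |e (ι p) i| ≤ B := fun p i =>
    (norm_le_pi_norm (e (ι p)) i).trans (hB _ ⟨p, rfl⟩)
  have hB0 : 0 ≤ B := (norm_nonneg _).trans (hB _ ⟨Classical.arbitrary M, rfl⟩)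
  set K' : ℝ := |K| * ‖(e.symm : (Fin d → ℝ) →L[ℝ] E)‖ + 1 with hK'
  have hK0 : 0 < K' := by positivity
  have hd : ∀ p q, dist p q ≤ K' * ‖e (ι p) - e (ι q)‖ := by
    intro p q
    have h1 := (e.symm : (Fin d → ℝ) →L[ℝ] E).le_opNorm (e (ι p) - e (ι q))
    rw [← map_sub] at h1 ⊢
    simp only [ContinuousLinearEquiv.coe_coe, ContinuousLinearEquiv.symm_apply_apply] at h1
    have h2 : K * ‖ι p - ι q‖ ≤ |K| * ‖ι p - ι q‖ :=
      mul_le_mul_of_nonneg_right (le_abs_self K) (norm_nonneg _)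
    have h3 := mul_le_mul_of_nonneg_left h1 (abs_nonneg K)
    nlinarith [h p q, norm_nonneg (e (ι p - ι q))]
  refine ⟨(2 * (B * K') + 5) ^ d, d, fun δ hδ hδ1 => ?_⟩
  let lab : M → Fin d → ℤ := fun p i => ⌊e (ι p) i * (K' / δ)⌋
  let N : ℕ := ⌈B * (K' / δ)⌉₊ + 1
  let T : Finset (Fin d → ℤ) := Fintype.piFinset fun _ => Finset.Icc (-(N : ℤ)) N
  have hq : 0 < K' / δ := by positivity
  have hN1 : B * (K' / δ) + 1 ≤ N := by
    have := Nat.le_ceil (B * (K' / δ))
    simp only [N]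
    push_cast
    linarith
  have hN2 : (N : ℝ) ≤ B * (K' / δ) + 2 := by
    have := Nat.ceil_lt_add_one (show 0 ≤ B * (K' / δ) by positivity)
    simp only [N]
    push_cast
    linarith
  have hT : ∀ p, lab p ∈ T := by
    intro p
    refine Fintype.mem_piFinset.mpr fun i => Finset.mem_Icc.mpr ?_
    obtain ⟨h1, h2⟩ := abs_le.mp (hB' p i)
    have h3 := mul_le_mul_of_nonneg_right h1 hq.le
    have h4 := mul_le_mul_of_nonneg_right h2 hq.le
    constructor
    · refine Int.le_floor.mpr ?_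
      push_cast
      linarith
    · have := Int.floor_le (e (ι p) i * (K' / δ))
      have h5 : ((lab p i : ℤ) : ℝ) ≤ ((N : ℤ) : ℝ) := by
        push_cast
        simp only [lab]
        linarith
      exact_mod_cast h5
  refine ⟨T.image (Function.invFun lab), ?_, fun p => ⟨Function.invFun lab (lab p),
    Finset.mem_image_of_mem _ (hT p), ?_⟩⟩
  · have h1 : ((T.image (Function.invFun lab)).card : ℝ) ≤ T.card := by
      exact_mod_cast Finset.card_image_le
    have h2 : T.card = (2 * N + 1) ^ d := by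
      simp only [T, Fintype.card_piFinset, Int.card_Icc, Finset.prod_const, Finset.card_univ,
        Fintype.card_fin]
      congr 1
      omega
    refine h1.trans ?_
    rw [h2, ← div_pow]
    push_cast
    refine pow_le_pow_left₀ (by positivity) ?_ d
    rw [le_div_iff₀ hδ]
    have h3 : B * (K' / δ) * δ = B * K' := by field_simp
    nlinarith
  · have h1 : lab (Function.invFun lab (lab p)) = lab p := Function.invFun_eq ⟨p, rfl⟩
    generalize Function.invFun lab (lab p) = q at h1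
    refine (hd p q).trans ?_
    have h2 : ‖e (ι p) - e (ι q)‖ ≤ δ / K' := by
      refine (pi_norm_le_iff_of_nonneg (by positivity)).mpr fun i => ?_
      have h3 := Int.abs_sub_lt_one_of_floor_eq_floor (congrFun h1 i).symm
      rw [← sub_mul, abs_mul, abs_of_pos hq, ← lt_div_iff₀ hq, one_div_div] at h3
      exact h3.le
    rwa [le_div_iff₀' hK0] at h2

theorem Cover_lab {Z : Type} [PseudoMetricSpace Z] [MeasurableSpace Z] [OpensMeasurableSpace Z]
    (F : Finset Z) (hF : F.Nonempty) (δ : ℝ) : ∃ cell : Z → ℕ, Measurable cell ∧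
      (∀ z, cell z + 1 ≤ F.card) ∧ ∀ z z', (∃ f ∈ F, dist z f ≤ δ) → (∃ f ∈ F, dist z' f ≤ δ) →
        cell z = cell z' → dist z z' ≤ 2 * δ := by
  classical
  have hc : 0 < F.card := hF.card_pos
  let f : ℕ → Z := fun i => if h : i < F.card then (F.equivFin.symm ⟨i, h⟩ : Z) else hF.choose
  have hex : ∀ z, ∃ i, dist z (f i) ≤ δ ∨ F.card ≤ i + 1 := fun z => ⟨F.card, Or.inr (by omega)⟩
  have hle : ∀ z, Nat.find (hex z) + 1 ≤ F.card := fun z => by
    have := Nat.find_min' (hex z) (m := F.card - 1) (Or.inr (by omega))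
    omega
  have key : ∀ z, (∃ u ∈ F, dist z u ≤ δ) → dist z (f (Nat.find (hex z))) ≤ δ := by
    rintro z ⟨u, hu, h1⟩
    have hi := (F.equivFin ⟨u, hu⟩).2
    have h2 : f (F.equivFin ⟨u, hu⟩) = u := by simp [f]
    have h3 := Nat.find_min' (hex z) (m := F.equivFin ⟨u, hu⟩) (Or.inl (by rwa [h2]))
    rcases Nat.find_spec (hex z) with h4 | h4
    · exact h4
    · rwa [show Nat.find (hex z) = F.equivFin ⟨u, hu⟩ by omega, h2]
  refine ⟨fun z => Nat.find (hex z), measurable_find hex fun k => ?_, hle,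
    fun z z' h1 h2 e => ?_⟩
  · exact (isClosed_le (continuous_id.dist continuous_const) continuous_const).measurableSet.union
      (MeasurableSet.const _)
  · have h3 := key z h1
    have h4 := key z' h2
    simp only at e
    rw [e] at h3
    linarith [dist_triangle_right z z' (f (Nat.find (hex z')))]

theorem Cover_le_exp {x R : ℝ} (hx : 0 ≤ x) (hR : 0 ≤ R) : x ≤ Real.exp (x * (1 + R)) := by
  have := Real.add_one_le_exp (x * (1 + R))
  nlinarith [mul_nonneg hx hR]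

/-- A finite measurable partition of a ball into small pieces. -/
theorem Cov.exists_part {Z : Type} [PseudoMetricSpace Z] [MeasurableSpace Z]
    [OpensMeasurableSpace Z] {o : Z} (h : Cov o) : ∃ (C : ℝ) (d : ℕ), 0 ≤ C ∧
    ∀ R δ : ℝ, 0 ≤ R → 0 < δ → δ ≤ 1 → ∃ (cell : Z → ℕ), Measurable cell ∧
      (∀ z, (cell z : ℝ) + 1 ≤ Real.exp (C * (1 + R)) / δ ^ d) ∧
      ∀ z z', dist z o ≤ R → dist z' o ≤ R → cell z = cell z' → dist z z' ≤ δ := by
  obtain ⟨C, d, hC, h⟩ := h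
  refine ⟨C + 2 ^ d, d, by positivity, fun R δ hR hδ hδ1 => ?_⟩
  obtain ⟨F, h1, h2⟩ := h R (δ / 2) hR (by positivity) (by linarith)
  have hF : F.Nonempty := by
    obtain ⟨f, hf, -⟩ := h2 o (by simpa using hR)
    exact ⟨f, hf⟩
  obtain ⟨cell, m, b, s⟩ := Cover_lab F hF (δ / 2)
  refine ⟨cell, m, fun z => ?_, fun z z' hz hz' e => ?_⟩
  · have h3 : (cell z : ℝ) + 1 ≤ F.card := by exact_mod_cast b z
    refine (h3.trans h1).trans ?_
    rw [div_pow, div_div_eq_mul_div, add_mul, Real.exp_add]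
    exact div_le_div_of_nonneg_right (mul_le_mul_of_nonneg_left
      (Cover_le_exp (by positivity) hR) (Real.exp_pos _).le) (by positivity)
  · linarith [s z z' (h2 z hz) (h2 z' hz') e]

/-- A countable measurable partition into cells whose size decays exponentially with the
distance to `o`. -/
theorem Cov.exists_cell {Z : Type} [PseudoMetricSpace Z] [MeasurableSpace Z]
    [OpensMeasurableSpace Z] {o : Z} (h : Cov o) {r A : ℝ} (hr : 0 < r) (hA : 0 ≤ A) :
    ∃ (cell : Z → ℕ) (C : ℝ), Measurable cell ∧ 0 ≤ C ∧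
      (∀ z, (cell z : ℝ) + 1 ≤ Real.exp (C * (1 + dist z o))) ∧
      ∀ z z', cell z = cell z' → dist z z' ≤ r * Real.exp (-A * dist z o) := by
  obtain ⟨C, d, hC, h⟩ := h.exists_part
  have hρ : 0 < min r 1 := lt_min hr one_pos
  have hδ : ∀ k : ℕ, min r 1 * Real.exp (-A * (1 + k)) ≤ 1 := fun k =>
    mul_le_one₀ (min_le_right _ _) (Real.exp_pos _).le
      (Real.exp_le_one_iff.mpr (by nlinarith [mul_nonneg hA (Nat.cast_nonneg (α := ℝ) k)]))
  choose c cm cb cs using fun k : ℕ => h (1 + k) (min r 1 * Real.exp (-A * (1 + k)))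
    (by positivity) (by positivity) (hδ k)
  have hk : Measurable fun z => ⌊dist z o⌋₊ :=
    Measurable.nat_floor (continuous_id.dist continuous_const).measurable
  have hc : Measurable fun z => c ⌊dist z o⌋₊ z :=
    (measurable_from_prod_countable_left (f := fun p : Z × ℕ => c p.2 p.1) cm).comp
      (measurable_id.prodMk hk)
  set b : ℝ := ((min r 1) ^ d)⁻¹ with hb
  have hb0 : 0 ≤ b := by positivity
  refine ⟨fun z => Nat.pair ⌊dist z o⌋₊ (c ⌊dist z o⌋₊ z), 2 * (2 * C + d * A + b + 1),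
    (measurable_of_countable (fun x : ℕ × ℕ => Nat.pair x.1 x.2)).comp (hk.prodMk hc),
    by positivity, fun z => ?_, fun z z' e => ?_⟩
  · have h1 : (⌊dist z o⌋₊ : ℝ) ≤ dist z o := Nat.floor_le dist_nonneg
    beta_reduce
    generalize ⌊dist z o⌋₊ = k at h1 ⊢
    have hk0 : (0 : ℝ) ≤ k := Nat.cast_nonneg k
    have h2 : ((Nat.pair k (c k z) : ℕ) : ℝ) + 1 ≤ (((max k (c k z) : ℕ) : ℝ) + 1) ^ 2 := by
      exact_mod_cast Nat.pair_lt_max_add_one_sq k (c k z)
    have h3 : ((max k (c k z) : ℕ) : ℝ) + 1 ≤ Real.exp ((2 * C + d * A + b + 1) * (1 + k)) := by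
      have hdA : 0 ≤ (d : ℝ) * A := by positivity
      rcases le_total k (c k z) with h4 | h4
      · rw [max_eq_right h4]
        refine (cb k z).trans ?_
        rw [mul_pow, ← Real.exp_nat_mul, div_eq_mul_inv, mul_inv, ← hb, ← Real.exp_neg]
        refine (mul_le_mul_of_nonneg_left (mul_le_mul_of_nonneg_right (Cover_le_exp hb0 hk0)
          (Real.exp_pos _).le) (Real.exp_pos _).le).trans ?_
        rw [← Real.exp_add, ← Real.exp_add]
        refine Real.exp_le_exp.mpr ?_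
        nlinarith [mul_nonneg hC hk0]
      · rw [max_eq_left h4]
        refine (Real.add_one_le_exp _).trans (Real.exp_le_exp.mpr ?_)
        nlinarith [mul_nonneg hC hk0, mul_nonneg hdA hk0, mul_nonneg hb0 hk0]
    refine h2.trans ((pow_le_pow_left₀ (by positivity) h3 2).trans ?_)
    rw [← Real.exp_nat_mul]
    refine Real.exp_le_exp.mpr ?_
    have h5 : 0 ≤ 2 * C + d * A + b + 1 := by positivity
    push_cast
    nlinarith
  · obtain ⟨e1, e2⟩ := Nat.pair_eq_pair.mp e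
    have h1 := Nat.lt_floor_add_one (dist z o)
    have h2 := Nat.lt_floor_add_one (dist z' o)
    rw [← e1] at h2 e2
    refine (cs _ z z' (by linarith) (by linarith) e2).trans ?_
    refine mul_le_mul (min_le_left _ _) (Real.exp_le_exp.mpr ?_) (Real.exp_pos _).le hr.le
    nlinarith

variable {G : Type} [Group G] [TopologicalSpace G] [IsTopologicalGroup G] [T2Space G]

theorem Nm.Cover_unit (N : Nm G) : ∃ M : ℕ, ∀ n : ℕ, ∃ F : Finset G, F.card ≤ M ^ n ∧
    ∀ g, N.len g ≤ n → ∃ f ∈ F, N.len (g * f⁻¹) ≤ 1 := by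
  classical
  obtain ⟨t, -, ht, hc⟩ := finite_cover_balls_of_compact
    (isCompact_closedBall (show N.Gm from (1 : G)) 2) one_pos
  obtain ⟨T, hT⟩ : ∃ T : Finset G, ∀ g, N.len g ≤ 2 → ∃ f ∈ T, N.len (g * f⁻¹) ≤ 1 := by
    refine ⟨ht.toFinset, fun g hg => ?_⟩
    have h1 : (show N.Gm from g) ∈ closedBall (show N.Gm from (1 : G)) 2 := by
      change N.len (g * 1⁻¹) ≤ 2
      simpa using hg
    obtain ⟨f, hf, h2⟩ := mem_iUnion₂.mp (hc h1)
    exact ⟨f, ht.mem_toFinset.mpr hf, le_of_lt h2⟩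
  refine ⟨T.card, fun n => ?_⟩
  induction n with
  | zero => exact ⟨{1}, by simp, fun g hg => ⟨1, by simp, by simpa using hg.trans (by simp)⟩⟩
  | succ n ih =>
    obtain ⟨F, h1, h2⟩ := ih
    refine ⟨T * F, Finset.card_mul_le.trans ?_, fun g hg => ?_⟩
    · rw [pow_succ']
      exact Nat.mul_le_mul_left _ h1
    · obtain ⟨u, v, hu, hv, rfl⟩ := N.split g 1 n zero_le_one (Nat.cast_nonneg n)
        (by push_cast at hg; linarith)
      obtain ⟨f, hf, h3⟩ := h2 v hv
      obtain ⟨e, he, h4⟩ := hT (u * (v * f⁻¹)) (by linarith [N.mul u (v * f⁻¹)])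
      refine ⟨e * f, Finset.mul_mem_mul he hf, ?_⟩
      rwa [show u * v * (e * f)⁻¹ = u * (v * f⁻¹) * e⁻¹ by group]

theorem Nm.Cover_cov (N : Nm G) : ∃ (C : ℝ) (d : ℕ), 0 ≤ C ∧ ∀ R δ : ℝ, 0 ≤ R → 0 < δ → δ ≤ 1 →
    ∃ F : Finset G, (F.card : ℝ) ≤ Real.exp (C * (1 + R)) / δ ^ d ∧
      ∀ g, N.len g ≤ R → ∃ f ∈ F, N.len (g * f⁻¹) ≤ δ := by
  classical
  obtain ⟨M, hM⟩ := N.Cover_unit
  obtain ⟨C, d, hC⟩ := N.cover
  refine ⟨|C| + M, d, by positivity, fun R δ hR hδ hδ1 => ?_⟩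
  obtain ⟨F, h1, h2⟩ := hM ⌈R⌉₊
  obtain ⟨T, h3, h4⟩ := hC δ hδ hδ1
  refine ⟨T * F, ?_, fun g hg => ?_⟩
  · have h5 : ((T * F).card : ℝ) ≤ T.card * F.card := by exact_mod_cast Finset.card_mul_le
    have h6 : (F.card : ℝ) ≤ Real.exp (M * (1 + R)) := by
      have h7 : (F.card : ℝ) ≤ (M : ℝ) ^ ⌈R⌉₊ := by exact_mod_cast h1
      have h8 : (M : ℝ) ≤ Real.exp M := by linarith [Real.add_one_le_exp (M : ℝ)]
      refine h7.trans ((pow_le_pow_left₀ (Nat.cast_nonneg M) h8 _).trans ?_)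
      rw [← Real.exp_nat_mul]
      refine Real.exp_le_exp.mpr ?_
      have := Nat.ceil_lt_add_one hR
      nlinarith [Nat.cast_nonneg (α := ℝ) M]
    have h9 : (T.card : ℝ) ≤ Real.exp (|C| * (1 + R)) / δ ^ d :=
      h3.trans (div_le_div_of_nonneg_right ((le_abs_self C).trans
        (Cover_le_exp (abs_nonneg C) hR)) (by positivity))
    refine h5.trans ((mul_le_mul h9 h6 (Nat.cast_nonneg _) (by positivity)).trans_eq ?_)
    rw [add_mul, Real.exp_add]
    ring
  · obtain ⟨f, hf, h5⟩ := h2 g (hg.trans (Nat.le_ceil R))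
    obtain ⟨e, he, h6⟩ := h4 _ h5
    refine ⟨e * f, Finset.mul_mem_mul he hf, ?_⟩
    rwa [show g * (e * f)⁻¹ = g * f⁻¹ * e⁻¹ by group]

theorem Nm.cov (N : Nm G) : Cov (Z := N.Gm) (1 : G) := by
  obtain ⟨C, d, hC, h⟩ := N.Cover_cov
  refine ⟨C, d, hC, fun R δ hR hδ hδ1 => ?_⟩
  obtain ⟨F, h1, h2⟩ := h R δ hR hδ hδ1
  refine ⟨F, h1, fun z hz => h2 z ?_⟩
  rw [N.dist_Gm, inv_one, mul_one] at hz
  exact hz

theorem Lat.cov (L : Lat G) : Cov L.o := by
  classical
  obtain ⟨C, d, hC, h⟩ := L.toNm.Cover_cov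
  refine ⟨C, d, hC, fun R δ hR hδ hδ1 => ?_⟩
  obtain ⟨F, h1, h2⟩ := h R δ hR hδ hδ1
  refine ⟨F.image L.pj, le_trans (by exact_mod_cast Finset.card_image_le) h1, fun b hb => ?_⟩
  obtain ⟨g, rfl, e⟩ := L.exists_smul L.o b
  obtain ⟨f, hf, h3⟩ := h2 g (by rwa [e, dist_comm])
  refine ⟨L.pj f, Finset.mem_image_of_mem _ hf, ?_⟩
  rw [L.smul_o]
  exact (L.dist_pj_le g f).trans h3

theorem Lat.card_le (L : Lat G) : ∃ C : ℝ, 0 ≤ C ∧ ∀ R : ℝ, 0 ≤ R →
    ({γ : L.Γ | L.len γ ≤ R}.ncard : ℝ) ≤ Real.exp (C * (1 + R)) := by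
  obtain ⟨C, d, hC, h⟩ := L.toNm.Cover_cov
  obtain ⟨r, hr, hs⟩ := L.exists_sys
  have hδ : 0 < min (r / 3) 1 := lt_min (by positivity) one_pos
  refine ⟨C + ((min (r / 3) 1) ^ d)⁻¹, by positivity, fun R hR => ?_⟩
  obtain ⟨F, h1, h2⟩ := h R _ hR hδ (min_le_right _ _)
  choose! f hf hf' using h2
  have h3 : {γ : L.Γ | L.len γ ≤ R}.ncard ≤ (F : Set G).ncard := by
    refine ncard_le_ncard_of_injOn (fun γ => f γ) (fun γ hγ => hf _ hγ) ?_ F.finite_toSet
    intro γ hγ γ' hγ' e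
    have h4 := hf' _ hγ
    have h5 := hf' _ hγ'
    simp only at e
    rw [← e, L.swap] at h5
    have h6 := L.mul ((γ : G) * (f γ)⁻¹) (f γ * (γ' : G)⁻¹)
    rw [mul_assoc, inv_mul_cancel_left] at h6
    have h7 := hs _ (L.Γ.mul_mem γ.2 (L.Γ.inv_mem γ'.2))
      (by linarith [min_le_left (r / 3) 1])
    exact Subtype.ext (mul_inv_eq_one.mp h7)
  rw [ncard_coe_finset] at h3
  refine le_trans (by exact_mod_cast h3) (h1.trans ?_)
  rw [add_mul, Real.exp_add, div_eq_mul_inv]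
  exact mul_le_mul_of_nonneg_left (Cover_le_exp (by positivity) hR) (Real.exp_pos _).le

theorem Lat.summable (L : Lat G) : ∃ S₀ : ℝ, 0 < S₀ ∧ ∀ S, S₀ ≤ S → ∀ g : G,
    Summable fun γ : L.Γ => Real.exp (-S * L.len (g * γ)) := by
  classical
  obtain ⟨C, hC, h⟩ := L.card_le
  refine ⟨C + 1, by positivity, fun S hS g => ?_⟩
  have hS0 : 0 ≤ S := by linarith
  have hg : Summable fun k : ℕ => Real.exp (2 * C) * Real.exp (-1) ^ k :=
    (summable_geometric_of_lt_one (Real.exp_pos _).le (by simp)).mul_left _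
  have h0 : Summable fun γ : L.Γ => Real.exp (-S * L.len γ) := by
    refine summable_of_sum_le (fun _ => (Real.exp_pos _).le)
      (c := ∑' k : ℕ, Real.exp (2 * C) * Real.exp (-1) ^ k) fun s => ?_
    rw [← Finset.sum_fiberwise_of_maps_to (t := s.image fun γ : L.Γ => ⌊L.len γ⌋₊)
      (g := fun γ : L.Γ => ⌊L.len γ⌋₊) (fun γ hγ => Finset.mem_image_of_mem _ hγ)]
    refine le_trans (Finset.sum_le_sum fun k _ => ?_)
      (hg.sum_le_tsum _ fun _ _ => by positivity)
    have hk0 : (0 : ℝ) ≤ k := Nat.cast_nonneg k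
    have h1 : ((s.filter fun γ : L.Γ => ⌊L.len γ⌋₊ = k).card : ℝ) ≤
        Real.exp (C * (1 + (k + 1))) := by
      refine le_trans ?_ (h (k + 1) (by positivity))
      rw [← ncard_coe_finset]
      refine Nat.cast_le.mpr (ncard_le_ncard (fun γ hγ => ?_) (L.fin _))
      have h2 := (Finset.mem_filter.mp hγ).2
      have h3 := Nat.lt_floor_add_one (L.len γ)
      rw [h2] at h3
      exact h3.le
    have h2 : ∑ γ ∈ s.filter fun γ : L.Γ => ⌊L.len γ⌋₊ = k, Real.exp (-S * L.len γ) ≤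
        (s.filter fun γ : L.Γ => ⌊L.len γ⌋₊ = k).card • Real.exp (-S * k) := by
      refine Finset.sum_le_card_nsmul _ _ _ fun γ hγ => Real.exp_le_exp.mpr ?_
      have h3 := Nat.floor_le (L.nonneg γ)
      rw [(Finset.mem_filter.mp hγ).2] at h3
      nlinarith
    rw [nsmul_eq_mul] at h2
    refine h2.trans ((mul_le_mul_of_nonneg_right h1 (Real.exp_pos _).le).trans ?_)
    rw [← Real.exp_nat_mul, ← Real.exp_add, ← Real.exp_add]
    refine Real.exp_le_exp.mpr ?_
    nlinarith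
  refine Summable.of_nonneg_of_le (fun _ => (Real.exp_pos _).le) (fun γ => ?_)
    (h0.mul_left (Real.exp (S * L.len g)))
  rw [← Real.exp_add]
  refine Real.exp_le_exp.mpr ?_
  have h1 := L.mul g⁻¹ (g * γ)
  rw [inv_mul_cancel_left, L.inv] at h1
  nlinarith

end Pool.Agent.P.MP_d483fb_an.Z
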