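import Pool.Agent.P.MP_d483fb_an.Z.Su.Susp
import Pool.Agent.P.MP_d483fb_an.Z.Su.Cover

/-! Covering numbers of the suspension, Lipschitz constants of powers, conjugated cocycles. -/

open scoped Topology
open Filter Set Metric MeasureTheory

set_option linter.unusedSectionVars false

noncomputable section

namespace Pool.Agent.P.MP_d483fb_an.Z

/-- Compact sets have polynomial covering numbers. -/
theorem Cov.cover {Z : Type} [PseudoMetricSpace Z] {o : Z} (h : Cov o) (K : Set Z)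
    (hK : IsCompact K) : ∃ C : ℝ, ∀ r : ℝ, 0 < r → r ≤ 1 →
      ∃ F : Finset Z, (F.card : ℝ) ≤ C * r⁻¹ ^ C ∧ K ⊆ ⋃ z ∈ F, ball z r := by
  obtain ⟨C, d, hC, h⟩ := h
  obtain ⟨R, hR, hK'⟩ := hK.isBounded.subset_closedBall_lt 0 o
  refine ⟨max (Real.exp (C * (1 + R)) * 2 ^ d) d, fun r hr hr1 => ?_⟩
  obtain ⟨F, h1, h2⟩ := h R (r / 2) hR.le (by positivity) (by linarith)
  refine ⟨F, h1.trans ?_, fun z hz => ?_⟩
  · have h3 : r⁻¹ ^ d ≤ r⁻¹ ^ (max (Real.exp (C * (1 + R)) * 2 ^ d) d : ℝ) := by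
      rw [← Real.rpow_natCast]
      exact Real.rpow_le_rpow_of_exponent_le ((one_le_inv₀ hr).mpr hr1) (le_max_right _ _)
    calc _ = Real.exp (C * (1 + R)) * 2 ^ d * r⁻¹ ^ d := by
          rw [div_pow, inv_pow]
          field_simp
      _ ≤ _ := mul_le_mul (le_max_left _ _) h3 (by positivity)
        (le_trans (by positivity) (le_max_left _ _))
  · obtain ⟨f, hf, h4⟩ := h2 z (hK' hz)
    exact mem_iUnion₂.mpr ⟨f, hf, h4.trans_lt (by linarith)⟩

variable {G : Type} [Group G] [TopologicalSpace G] [IsTopologicalGroup G] [T2Space G]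

theorem Nm.len_pow (N : Nm G) (g : G) (i : ℕ) : N.len (g ^ i) ≤ i * N.len g := by
  induction i with
  | zero => simp [N.one]
  | succ i ih =>
    rw [pow_succ]
    push_cast
    linarith [N.mul (g ^ i) g]

theorem Nm.len_zpow (N : Nm G) (g : G) (i : ℤ) : N.len (g ^ i) ≤ |(i : ℝ)| * N.len g := by
  obtain ⟨k, rfl | rfl⟩ := i.eq_nat_or_neg
  · simpa using N.len_pow g k
  · simpa [N.inv] using N.len_pow g k

namespace Lat

/-- Uniform local freeness over compact sets. -/
theorem inj_compact (L : Lat G) (K : Set L.B) (hK : IsCompact K) :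
    ∃ W ∈ 𝓝 (1 : G), ∀ b ∈ K, ∀ g ∈ W, g • b = b → g = 1 := by
  obtain ⟨r, hr, h⟩ := L.inj
  obtain ⟨R, hR⟩ := hK.isBounded.subset_closedBall L.o
  refine ⟨{g | L.len g < r * Real.exp (-2 * R)}, (isOpen_lt L.cont continuous_const).mem_nhds
    (by rw [mem_ofPred_eq, L.one]; positivity), fun b hb g hg e => h g b e (lt_of_lt_of_le hg ?_)⟩
  have : L.ht b ≤ R := hR hb
  exact mul_le_mul_of_nonneg_left (Real.exp_le_exp.mpr (by linarith)) hr.le

theorem ht_le_smul (L : Lat G) (g : G) (b : L.B) : L.ht b ≤ L.ht (g • b) + L.len g := by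
  have := L.ht_smul g⁻¹ (g • b)
  rwa [inv_smul_smul, L.inv] at this

variable [MeasurableSpace G] [BorelSpace G] {L : Lat G}

theorem c_conj (g u : G) (b : L.B) :
    L.c g (u • b) * L.c u b * (L.c g b)⁻¹ = L.c (g * u * g⁻¹) (g • b) := by
  rw [c_mul, inv_smul_smul, c_mul, c_inv]

theorem len_c_conj (g u : G) (b : L.B) : L.len (L.c g (u • b) * L.c u b * (L.c g b)⁻¹ : L.Γ) ≤
    L.len (g * u * g⁻¹) + (L.ht (g • u • b) + L.ht (g • b)) := by
  have := L.len_c (g * u * g⁻¹) (g • b)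
  rw [smul_smul, inv_mul_cancel_right, mul_smul] at this
  rw [c_conj]
  linarith

theorem smul_j_inj {Y : Type} [MulAction L.Γ Y] {g : G} {b : L.B} {p p' : Y}
    (h : g • L.j b p = g • L.j b p') : p = p' := congrArg Sk.pt (smul_left_cancel g h)

variable {M : Type} [MetricSpace M] [CompactSpace M] [MulAction L.Γ M] [φ : Fib L M]

theorem lip_zpow (g : G) : ∃ Lp : ℝ, 0 ≤ Lp ∧ ∀ (i : ℤ) (x y : L.Sk M),
    dist (g ^ i • x) (g ^ i • y) ≤ Real.exp (Lp * |(i : ℝ)|) * dist x y := by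
  have h1 := one_le_K (L := L) (M := M)
  have h2 := mul_nonneg (add_nonneg φ.S_nonneg zero_le_two) (L.nonneg g)
  refine ⟨2 * L.K M + (φ.S + 2) * L.len g, by linarith, fun i x y => ?_⟩
  rcases eq_or_ne i 0 with rfl | hi
  · rw [zpow_zero, one_smul, one_smul, Int.cast_zero, abs_zero, mul_zero, Real.exp_zero, one_mul]
  have h3 : (1 : ℝ) ≤ |(i : ℝ)| := by exact_mod_cast Int.one_le_abs hi
  refine (dist_smulX _ _ _).trans (mul_le_mul_of_nonneg_right ?_ dist_nonneg)
  rw [add_mul (2 * L.K M), Real.exp_add]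
  refine mul_le_mul ?_ (Real.exp_le_exp.mpr ?_) (Real.exp_pos _).le (Real.exp_pos _).le
  · nlinarith [Real.add_one_le_exp (2 * L.K M * |(i : ℝ)|)]
  · have := mul_le_mul_of_nonneg_left (L.len_zpow g i) (add_nonneg φ.S_nonneg zero_le_two)
    linarith

theorem covX (hM : PCov M) (x₀ : L.Sk M) : Cov x₀ := by
  classical
  obtain ⟨C, d, hC, h⟩ := L.toNm.cov
  obtain ⟨C', d', h'⟩ := hM
  have hK := one_le_K (L := L) (M := M)
  have hS := φ.S_nonneg
  have hh := L.ht_nonneg x₀.π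
  set A : ℝ := (2 * L.K M) ^ d * (|C'| * 2 ^ d') with hA
  have hA0 : 0 ≤ A := by positivity
  refine ⟨A + (C + d' * φ.S) * (1 + L.ht x₀.π), d + d', by positivity, fun R δ hR hδ hδ1 => ?_⟩
  set T := R + L.ht x₀.π with hT
  have hT0 : 0 ≤ T := by positivity
  have hE : 1 ≤ Real.exp (φ.S * (1 + T)) := Real.one_le_exp (by positivity)
  obtain ⟨F, h1, h2⟩ := h T (δ / (2 * L.K M)) hT0 (by positivity)
    ((div_le_one (by positivity)).mpr (by linarith))
  obtain ⟨F', h1', h2'⟩ := h' (δ / (2 * Real.exp (φ.S * (1 + T)))) (by positivity)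
    ((div_le_one (by positivity)).mpr (by linarith))
  refine ⟨(F ×ˢ F').image fun z => L.q (show G from z.1) z.2, ?_, fun x hx => ?_⟩
  · have h3 : (((F ×ˢ F').image fun z => L.q (show G from z.1) z.2).card : ℝ) ≤ F.card * F'.card := by
      rw [← Nat.cast_mul, ← Finset.card_product]
      exact Nat.cast_le.mpr Finset.card_image_le
    have h4 := h1'.trans (div_le_div_of_nonneg_right (le_abs_self C') (by positivity))
    refine (h3.trans (mul_le_mul h1 h4 (by positivity) (by positivity))).trans ?_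
    have h5 : A * Real.exp ((C + d' * φ.S) * (1 + T)) ≤
        Real.exp ((A + (C + d' * φ.S) * (1 + L.ht x₀.π)) * (1 + R)) := by
      rw [add_mul A, Real.exp_add]
      refine mul_le_mul ?_ (Real.exp_le_exp.mpr ?_) (Real.exp_pos _).le (Real.exp_pos _).le
      · nlinarith [Real.add_one_le_exp (A * (1 + R)), mul_nonneg hA0 hR]
      · rw [mul_assoc]
        exact mul_le_mul_of_nonneg_left (by nlinarith [mul_nonneg hh hR]) (by positivity)
    refine le_trans (le_of_eq ?_) (div_le_div_of_nonneg_right h5 (by positivity))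
    rw [add_mul C, Real.exp_add, mul_assoc (d' : ℝ), Real.exp_nat_mul, hA]
    simp only [div_pow, mul_pow, pow_add]
    field_simp
  · have h3 : L.len (L.sec x.π) ≤ T := by
      rw [len_sec]
      linarith [L.ht_le x.π x₀.π, dist_π_le x x₀]
    obtain ⟨f, hf, h4⟩ := h2 (L.sec x.π) (by rw [L.dist_Gm, inv_one, mul_one]; exact h3)
    obtain ⟨p, hp, h5⟩ := h2' x.pt
    refine ⟨L.q (show G from f) p, Finset.mem_image.mpr ⟨(f, p), Finset.mk_mem_product hf hp, rfl⟩, ?_⟩
    have h6 := dist_q_le (L := L) (L.sec x.π) f x.pt p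
    rw [q_eta] at h6
    have h7 : L.len (L.sec x.π * (show G from f)⁻¹) ≤ δ / (2 * L.K M) := h4
    have h8 : Real.exp (φ.S * (1 + L.len (L.sec x.π))) ≤ Real.exp (φ.S * (1 + T)) :=
      Real.exp_le_exp.mpr (mul_le_mul_of_nonneg_left (by linarith) hS)
    have h9 := mul_le_mul h8 h5 dist_nonneg (Real.exp_pos _).le
    have h10 := mul_le_mul_of_nonneg_left h7 (zero_le_one.trans hK)
    rw [show Real.exp (φ.S * (1 + T)) * (δ / (2 * Real.exp (φ.S * (1 + T)))) = δ / 2 by
      field_simp] at h9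
    rw [show L.K M * (δ / (2 * L.K M)) = δ / 2 by field_simp] at h10
    linarith

/-- Compact subsets of the suspension have polynomial covering numbers. -/
theorem coverX (hM : PCov M) (K : Set (L.Sk M)) (hK : IsCompact K) : ∃ C : ℝ, ∀ r : ℝ, 0 < r →
    r ≤ 1 → ∃ F : Finset (L.Sk M), (F.card : ℝ) ≤ C * r⁻¹ ^ C ∧ K ⊆ ⋃ z ∈ F, ball z r := by
  rcases K.eq_empty_or_nonempty with rfl | ⟨x, -⟩
  · exact ⟨0, fun r _ _ => ⟨∅, by simp, empty_subset _⟩⟩
  · exact (covX hM x).cover K hK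

end Lat

end Pool.Agent.P.MP_d483fb_an.Z
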