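import Pool.Agent.P.MP_d483fb_an.Z.Su.Base

/-! The Haar measure lifted from an invariant probability measure on the quotient. -/

open scoped Topology ENNReal Pointwise
open Filter Set Metric MeasureTheory

set_option linter.unusedSectionVars false

noncomputable section

namespace Pool.Agent.P.MP_d483fb_an.Z

namespace Lat

variable {G : Type} [Group G] [TopologicalSpace G] [IsTopologicalGroup G] [T2Space G]
  [MeasurableSpace G] [BorelSpace G] (L : Lat G) (m : Measure L.B) [IsProbabilityMeasure m]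
  [SMulInvariantMeasure G L.B m]

/-- The lift of a measure on the quotient. -/
def haar (m : Measure L.B) : Measure G :=
  Measure.sum fun γ : L.Γ => m.map fun b => L.sec b * γ

theorem haar_fr (b : L.B) (γ : L.Γ) : L.fr (L.sec b * γ) = γ := by
  rw [fr_mul, fr_sec, one_mul]

theorem haar_pj (b : L.B) (γ : L.Γ) : L.pj (L.sec b * γ) = b := by rw [pj_mul, pj_sec]

theorem haar_range (γ : L.Γ) : range (fun b => L.sec b * γ) = L.fr ⁻¹' {γ} := by
  ext g
  constructor
  · rintro ⟨b, rfl⟩
    exact L.haar_fr b γ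
  · intro hg
    have h : L.fr g = γ := hg
    exact ⟨L.pj g, by rw [← h]; exact L.sec_mul_fr g⟩

theorem haar_meas (γ : L.Γ) : Measurable fun b => L.sec b * γ :=
  (continuous_mul_const (γ : G)).measurable.comp L.measurable_sec

theorem haar_emb (γ : L.Γ) : MeasurableEmbedding fun b => L.sec b * γ :=
  MeasurableEmbedding.of_measurable_inverse (L.haar_meas γ)
    (by rw [haar_range]; exact L.measurable_fr (measurableSet_singleton γ)) L.measurable_pj
    (fun b => L.haar_pj b γ)

theorem haar_apply (E : Set G) :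
    L.haar m E = ∑' γ : L.Γ, m ((fun b => L.sec b * γ) ⁻¹' E) := by
  rw [haar, Measure.sum_apply_of_countable]
  exact tsum_congr fun γ => (L.haar_emb γ).map_apply m E

theorem lintegral_haar {f : G → ℝ≥0∞} (hf : Measurable f) :
    ∫⁻ g, f g ∂L.haar m = ∫⁻ b, ∑' γ : L.Γ, f (L.sec b * γ) ∂m := by
  rw [haar, lintegral_sum_measure,
    lintegral_tsum (f := fun (γ : L.Γ) b => f (L.sec b * γ))
      fun γ => (hf.comp (L.haar_meas γ)).aemeasurable]
  exact tsum_congr fun γ => lintegral_map hf (L.haar_meas γ)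

theorem haar_left : (L.haar m).IsMulLeftInvariant := by
  refine ⟨fun g => Measure.ext_of_lintegral _ fun f hf => ?_⟩
  have hg : Measurable fun x : G => g * x := (continuous_const_mul g).measurable
  have hF : Measurable fun b => ∑' γ : L.Γ, f (L.sec b * γ) :=
    Measurable.tsum fun γ => hf.comp (L.haar_meas γ)
  rw [lintegral_map hf hg, L.lintegral_haar m (f := fun x => f (g * x)) (hf.comp hg),
    L.lintegral_haar m hf,
    ← (measurePreserving_smul g m).lintegral_comp hF]
  refine lintegral_congr fun b => ?_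
  rw [← (Equiv.mulLeft (L.c g b)).tsum_eq fun γ : L.Γ => f (L.sec (g • b) * γ)]
  refine tsum_congr fun γ => ?_
  rw [Equiv.coe_mulLeft, Subgroup.coe_mul, ← mul_assoc (L.sec (g • b)), sec_mul_c, mul_assoc]

theorem haar_base (R : ℝ) (U : Set L.B) : L.haar m {g | L.len g ≤ R ∧ L.pj g ∈ U} ≤
    ({γ : L.Γ | L.len γ ≤ 2 * R}.ncard : ℝ≥0∞) * m U := by
  classical
  have hf := L.fin (2 * R)
  rw [haar_apply, tsum_eq_sum (s := hf.toFinset), Set.ncard_eq_toFinset_card _ hf,
    ← nsmul_eq_mul]
  · refine Finset.sum_le_card_nsmul _ _ _ fun γ _ => measure_mono fun b hb => ?_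
    have h := hb.2
    rwa [haar_pj] at h
  · intro γ hγ
    rw [Set.Finite.mem_toFinset] at hγ
    refine measure_mono_null (fun b hb => hγ ?_) measure_empty |>.trans rfl
    have h1 : L.len (L.sec b * γ) ≤ R := hb.1
    have h2 := L.ht_pj_le (L.sec b * γ)
    have h3 := L.len_fr (L.sec b * γ)
    rw [haar_fr] at h3
    show L.len γ ≤ 2 * R
    linarith

theorem haar_ball_lt_top (R : ℝ) : L.haar m {g | L.len g ≤ R} < ∞ := by
  have h := L.haar_base m R univ
  simp only [mem_univ, and_true, measure_univ, mul_one] at h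
  exact h.trans_lt (ENNReal.natCast_lt_top _)

theorem haar_fin : IsFiniteMeasureOnCompacts (L.haar m) := by
  refine ⟨fun K hK => ?_⟩
  obtain ⟨R, hR⟩ := (hK.image L.cont).bddAbove
  exact (measure_mono fun g hg => hR (mem_image_of_mem _ hg)).trans_lt (L.haar_ball_lt_top m R)

theorem haar_inter (E : Set G) : L.haar m (E ∩ range L.sec) = m (L.sec ⁻¹' E) := by
  have e : range L.sec = L.fr ⁻¹' {1} := by
    rw [← haar_range]
    simp
  rw [haar_apply, tsum_eq_single 1]
  · congr 1
    ext b
    simp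
  · intro γ hγ
    have : (fun b => L.sec b * γ) ⁻¹' (E ∩ range L.sec) = ∅ := by
      refine eq_empty_of_forall_notMem fun b hb => hγ ?_
      have h := hb.2
      rw [e, mem_preimage, haar_fr] at h
      exact h
    rw [this, measure_empty]

theorem haar_one : L.haar m (range L.sec) = 1 := by
  have h := L.haar_inter m univ
  rwa [univ_inter, preimage_univ, measure_univ] at h

theorem haar_pos : (L.haar m).IsOpenPosMeasure := by
  have := L.haar_left m
  have h : ∃ n : ℕ, L.haar m {g | L.len g ≤ n} ≠ 0 := by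
    by_contra hn
    push Not at hn
    have h1 := measure_iUnion_null hn
    have h2 : L.haar m (range L.sec) = 0 := measure_mono_null (fun g _ => by
      simpa using exists_nat_ge (L.len g)) h1
    rw [haar_one] at h2
    exact one_ne_zero h2
  obtain ⟨n, hn⟩ := h
  exact isOpenPosMeasure_of_mulLeftInvariant_of_compact _ (L.cpt n) hn

instance : (L.haar m).IsHaarMeasure :=
  have := L.haar_left m
  have := L.haar_fin m
  have := L.haar_pos m
  {}

theorem haar_range_meas : MeasurableSet (range L.sec) := by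
  have h := (L.haar_emb 1).measurableSet_range
  simpa using h

theorem haar_mod (N : Nm G) [LocallyCompactSpace G] (μ : Measure G) [μ.IsHaarMeasure] (g : G) :
    μ.map (· * g) = Measure.modularCharacterFun g • μ := by
  have := N.polish
  rw [Measure.modularCharacterFun_eq_haarScalarFactor μ]
  exact Measure.isMulLeftInvariant_eq_smul _ μ

theorem haar_mod_eq [LocallyCompactSpace G] (g : G) :
    (Measure.modularCharacterFun g : ℝ≥0∞) = L.haar m ((· * g) ⁻¹' range L.sec) := by
  rw [← Measure.map_apply (continuous_mul_const g).measurable L.haar_range_meas,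
    haar_mod L.toNm, Measure.smul_apply, haar_one]
  simp

include m in
theorem haar_mod_lat [LocallyCompactSpace G] (γ : L.Γ) :
    Measure.modularCharacterFun (γ : G) = 1 := by
  have h := L.haar_mod_eq m γ
  have h1 := L.haar_one m
  rw [haar_apply] at h h1
  rw [← (Equiv.mulRight γ).tsum_eq fun δ : L.Γ => m ((fun b => L.sec b * δ) ⁻¹' range L.sec)] at h1
  have h2 : (Measure.modularCharacterFun (γ : G) : ℝ≥0∞) = 1 := by
    rw [h, ← h1]
    refine tsum_congr fun δ => ?_
    congr 1
    ext b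
    simp [mul_assoc]
  exact_mod_cast h2

include m in
theorem haar_mod_le [LocallyCompactSpace G] (g : G) : Measure.modularCharacterFun g ≤ 1 := by
  have := L.polish
  by_contra hc
  push Not at hc
  have hm : Measurable fun x : G => (Measure.modularCharacterFun x : ℝ≥0∞) := by
    simp only [L.haar_mod_eq m]
    exact measurable_measure_prodMk_left (ν := L.haar m) (s := {z : G × G | z.2 * z.1 ∈ range L.sec})
      ((measurable_snd.mul measurable_fst) L.haar_range_meas)
  have hF : Measurable fun b => (1 + (Measure.modularCharacterFun (L.sec b) : ℝ≥0∞))⁻¹ :=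
    (measurable_const.add (hm.comp L.measurable_sec)).inv
  have h1 := (measurePreserving_smul g m).lintegral_comp hF
  refine absurd h1 (ne_of_lt (lintegral_strict_mono (IsProbabilityMeasure.ne_zero m)
    hF.aemeasurable ?_ (Eventually.of_forall fun b => ?_)))
  · refine ne_top_of_le_ne_top ENNReal.one_ne_top ?_
    calc ∫⁻ b, (1 + (Measure.modularCharacterFun (L.sec (g • b)) : ℝ≥0∞))⁻¹ ∂m
        ≤ ∫⁻ _, 1 ∂m := lintegral_mono fun b => ENNReal.inv_le_one.2 le_self_add
      _ = 1 := by simp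
  · have h2 := congrArg Measure.modularCharacterFun (L.sec_mul_c g b)
    rw [Measure.modularCharacterFun_map_mul, Measure.modularCharacterFun_map_mul,
      L.haar_mod_lat m, mul_one] at h2
    rw [ENNReal.inv_lt_inv, ENNReal.add_lt_add_iff_left ENNReal.one_ne_top, ENNReal.coe_lt_coe, h2]
    exact lt_mul_of_one_lt_left (Measure.modularCharacterFun_pos _) hc

instance : (L.haar m).IsMulRightInvariant := by
  have := L.locallyCompact
  refine ⟨fun g => ?_⟩
  have h1 := L.haar_mod_le m g
  have h2 := L.haar_mod_le m g⁻¹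
  have h3 := Measure.modularCharacterFun_map_mul g g⁻¹
  rw [mul_inv_cancel, Measure.modularCharacterFun_map_one] at h3
  have h4 : Measure.modularCharacterFun g = 1 :=
    le_antisymm h1 (h3.trans_le (mul_le_of_le_one_right' h2))
  rw [haar_mod L.toNm, h4, one_smul]

instance : (L.haar m).IsInvInvariant := by
  have := L.locallyCompact
  have := L.polish
  constructor
  obtain ⟨c, hc⟩ : ∃ c : ℝ≥0∞, (L.haar m).inv = c • L.haar m :=
    ⟨Measure.haarScalarFactor (L.haar m).inv (L.haar m),
      Measure.isMulLeftInvariant_eq_smul _ _⟩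
  have h1 : L.haar m = c ^ 2 • L.haar m := by
    conv_lhs => rw [← Measure.inv_inv (L.haar m), hc, Measure.inv_def, Measure.map_smul,
      ← Measure.inv_def, hc, smul_smul, ← pow_two]
  have h2 := congrArg (fun μ : Measure G => μ (range L.sec)) h1
  simp only [Measure.smul_apply, haar_one, smul_eq_mul, mul_one] at h2
  have h3 : c = 1 := (ENNReal.pow_right_strictMono two_ne_zero).injective (by
    simpa using h2.symm)
  rw [hc, h3, one_smul]

theorem measurableSet_range_sec : MeasurableSet (range L.sec) :=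
  L.haar_range_meas

theorem map_sec : m.map L.sec = (L.haar m).restrict (range L.sec) := by
  ext E hE
  rw [Measure.map_apply L.measurable_sec hE, Measure.restrict_apply hE, haar_inter]

theorem map_pj : ((L.haar m).restrict (range L.sec)).map L.pj = m := by
  rw [← map_sec, Measure.map_map L.measurable_pj L.measurable_sec,
    show L.pj ∘ L.sec = id from funext L.pj_sec, Measure.map_id]

theorem haar_range_sec : L.haar m (range L.sec) = 1 :=
  L.haar_one m

theorem isFundamentalDomain : IsFundamentalDomain L.Γ.op (range L.sec) (L.haar m) := by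
  have e : range L.sec = L.fr ⁻¹' {1} := by
    rw [← haar_range]
    simp
  refine IsFundamentalDomain.mk' L.haar_range_meas.nullMeasurableSet fun x => ?_
  refine ⟨⟨MulOpposite.op ((L.fr x)⁻¹ : L.Γ), ((L.fr x)⁻¹).2⟩, ?_, ?_⟩
  · show x * ((L.fr x)⁻¹ : L.Γ) ∈ range L.sec
    rw [e, mem_preimage, fr_mul, mul_inv_cancel]
    rfl
  · rintro ⟨y, hy⟩ h
    have h1 : x * ((⟨y.unop, hy⟩ : L.Γ) : G) ∈ range L.sec := h
    rw [e, mem_preimage, fr_mul, mem_singleton_iff, mul_eq_one_iff_inv_eq] at h1
    refine Subtype.ext ?_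
    rw [h1]
    rfl

theorem haar_orbit (E : Set G) (b : L.B) : (fun g : G => g • b) '' E =
    ⋃ γ : L.Γ, (fun u => L.sec u * γ) ⁻¹' ((· * (L.sec b)⁻¹) ⁻¹' E) := by
  ext u
  simp only [mem_image, mem_iUnion, mem_preimage]
  constructor
  · rintro ⟨g, hg, rfl⟩
    exact ⟨L.c g b, by rwa [sec_mul_c, mul_inv_cancel_right]⟩
  · rintro ⟨γ, h⟩
    exact ⟨_, h, by rw [← pj_mul_sec, inv_mul_cancel_right, haar_pj]⟩

theorem measurableSet_orbit {E : Set G} (hE : MeasurableSet E) (b : L.B) :
    MeasurableSet ((fun g : G => g • b) '' E) := by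
  rw [haar_orbit]
  exact MeasurableSet.iUnion fun γ => L.haar_meas γ ((continuous_mul_const _).measurable hE)

/-- Unfolding, upper bound for the measure on the quotient. -/
theorem orbit_le (E : Set G) (b : L.B) : m ((fun g : G => g • b) '' E) ≤ L.haar m E := by
  rw [haar_orbit, ← measure_preimage_mul_right (L.haar m) (L.sec b)⁻¹ E, haar_apply]
  exact measure_iUnion_le _

/-- Unfolding, equality on sets that inject. -/
theorem orbit_eq {E : Set G} (hE : MeasurableSet E) (b : L.B)
    (h : InjOn (fun g : G => g • b) E) : m ((fun g : G => g • b) '' E) = L.haar m E := by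
  rw [haar_orbit, ← measure_preimage_mul_right (L.haar m) (L.sec b)⁻¹ E, haar_apply]
  refine measure_iUnion (fun γ δ hne => disjoint_left.2 fun u h1 h2 => hne ?_)
    fun γ => L.haar_meas γ ((continuous_mul_const _).measurable hE)
  have key : ∀ ε : L.Γ, (L.sec u * ε * (L.sec b)⁻¹) • b = u := fun ε => by
    rw [← pj_mul_sec, inv_mul_cancel_right, haar_pj]
  have h3 := h h1 h2 ((key γ).trans (key δ).symm)
  exact Subtype.ext (mul_left_cancel (mul_right_cancel h3))

/-- Unfolding, upper bound for the Haar measure. -/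
theorem haar_le (R : ℝ) (b : L.B) {U : Set L.B} (hU : MeasurableSet U) :
    L.haar m {g | L.len g ≤ R ∧ g • b ∈ U} ≤
      ({γ : L.Γ | L.len γ ≤ 2 * R + 2 * L.ht b}.ncard : ℝ≥0∞) * m U := by
  rw [← measure_preimage_mul_right (L.haar m) (L.sec b)⁻¹, ← mul_add]
  refine le_trans (measure_mono fun g hg => ?_) (L.haar_base m (R + L.ht b) U)
  have h1 : L.len (g * (L.sec b)⁻¹) ≤ R := hg.1
  have h2 : (g * (L.sec b)⁻¹) • b ∈ U := hg.2
  have h3 := L.mul (g * (L.sec b)⁻¹) (L.sec b)
  rw [inv_mul_cancel_right, len_sec] at h3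
  rw [← pj_mul_sec, inv_mul_cancel_right] at h2
  exact ⟨by linarith, h2⟩

theorem ae_iff {p : L.B → Prop} : (∀ᵐ b ∂m, p b) ↔ ∀ᵐ g ∂L.haar m, p (L.pj g) := by
  rw [haar, Measure.ae_sum_iff]
  simp only [(L.haar_emb _).ae_map_iff, haar_pj, forall_const]

theorem haar_cover {S : Set G} {r : ℝ} (F : Finset G)
    (h : ∀ g ∈ S, ∃ f ∈ F, L.len (g * f⁻¹) ≤ r) :
    L.haar m S ≤ F.card * L.haar m {g | L.len g ≤ r} := by
  have h1 : S ⊆ ⋃ f ∈ F, (· * f⁻¹) ⁻¹' {g | L.len g ≤ r} := fun g hg => by
    obtain ⟨f, hf, h2⟩ := h g hg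
    exact mem_biUnion hf h2
  refine (measure_mono h1).trans ((measure_biUnion_finset_le F _).trans ?_)
  simp only [measure_preimage_mul_right, Finset.sum_const, nsmul_eq_mul, le_refl]

theorem haar_ball_le : ∃ C : ℝ, ∀ R : ℝ, 0 ≤ R →
    L.haar m {g | L.len g ≤ R} ≤ ENNReal.ofReal (Real.exp (C * (1 + R))) := by
  obtain ⟨C, d, hC⟩ := L.cover
  obtain ⟨F, -, hF⟩ := hC (1 / 2) (by norm_num) (by norm_num)
  have key : ∀ n : ℕ, L.haar m {g | L.len g ≤ (n + 1) / 2} ≤
      (F.card : ℝ≥0∞) ^ n * L.haar m {g | L.len g ≤ 1 / 2} := by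
    intro n
    induction n with
    | zero => simp
    | succ n ih =>
      have hn : (0 : ℝ) ≤ n := Nat.cast_nonneg n
      rw [pow_succ', mul_assoc]
      refine le_trans (L.haar_cover m F fun g hg => ?_) (mul_le_mul_right ih _)
      obtain ⟨u, v, hu, hv, rfl⟩ := L.split g (n / 2) 1 (by positivity) zero_le_one (by
        have h1 : L.len g ≤ ((n + 1 : ℕ) + 1) / 2 := hg
        push_cast at h1
        linarith)
      obtain ⟨f, hf, h2⟩ := hF v hv
      refine ⟨f, hf, ?_⟩
      have h3 := L.mul u (v * f⁻¹)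
      rw [mul_assoc]
      linarith
  obtain ⟨M, hM⟩ : ∃ M : ℝ, M = (L.haar m {g | L.len g ≤ 1 / 2}).toReal := ⟨_, rfl⟩
  have hM0 : 0 ≤ M := hM ▸ ENNReal.toReal_nonneg
  have hM1 : L.haar m {g | L.len g ≤ 1 / 2} = ENNReal.ofReal M := by
    rw [hM, ENNReal.ofReal_toReal (L.haar_ball_lt_top m _).ne]
  have hk : (0 : ℝ) ≤ F.card := Nat.cast_nonneg _
  refine ⟨2 * F.card + M, fun R hR => ?_⟩
  have h1 := Nat.le_ceil (2 * R)
  have h2 := (Nat.ceil_lt_add_one (show 0 ≤ 2 * R by linarith)).le
  refine le_trans (measure_mono fun g hg => ?_) ((key ⌈2 * R⌉₊).trans ?_)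
  · have h3 : L.len g ≤ R := hg
    show L.len g ≤ _
    linarith
  · rw [hM1, ← ENNReal.ofReal_natCast, ← ENNReal.ofReal_pow hk,
      ← ENNReal.ofReal_mul (pow_nonneg hk _)]
    refine ENNReal.ofReal_le_ofReal ?_
    have h3 : (F.card : ℝ) ^ ⌈2 * R⌉₊ ≤ Real.exp (⌈2 * R⌉₊ * F.card) := by
      rw [Real.exp_nat_mul]
      exact pow_le_pow_left₀ hk (by linarith [Real.add_one_le_exp (F.card : ℝ)]) _
    have h4 : M ≤ Real.exp M := by linarith [Real.add_one_le_exp M]
    refine (mul_le_mul h3 h4 hM0 (Real.exp_pos _).le).trans ?_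
    rw [← Real.exp_add]
    refine Real.exp_le_exp.2 ?_
    nlinarith [mul_le_mul_of_nonneg_right h2 hk, mul_nonneg hM0 hR]

theorem le_haar_ball : ∃ (c : ℝ) (d : ℕ), 0 < c ∧ ∀ δ : ℝ, 0 < δ → δ ≤ 1 →
    ENNReal.ofReal (c * δ ^ d) ≤ L.haar m {g | L.len g ≤ δ} := by
  obtain ⟨C, d, hC⟩ := L.cover
  have hp : L.haar m {g | L.len g ≤ 1} ≠ 0 := by
    have h1 : IsOpen {g | L.len g < 1} := isOpen_lt L.cont continuous_const
    refine ((h1.measure_pos (L.haar m) ⟨1, ?_⟩).trans_le
      (measure_mono fun g (hg : L.len g < 1) => show L.len g ≤ 1 from hg.le)).ne'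
    show L.len 1 < 1
    rw [L.one]
    exact one_pos
  have hM := ENNReal.toReal_pos hp (L.haar_ball_lt_top m 1).ne
  have hC1 : 0 < max C 1 := lt_max_of_lt_right one_pos
  refine ⟨(L.haar m {g | L.len g ≤ 1}).toReal / max C 1, d, div_pos hM hC1, fun δ h0 h1 => ?_⟩
  obtain ⟨F, hF, h2⟩ := hC δ h0 h1
  have h3 := ENNReal.toReal_mono (ENNReal.mul_ne_top (ENNReal.natCast_ne_top _)
    (L.haar_ball_lt_top m δ).ne) (L.haar_cover m (S := {g | L.len g ≤ 1}) F h2)
  rw [ENNReal.toReal_mul, ENNReal.toReal_natCast] at h3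
  refine ENNReal.ofReal_le_of_le_toReal ?_
  have h4 : 0 < δ ^ d := pow_pos h0 d
  rw [le_div_iff₀ h4] at hF
  have h5 : 0 ≤ (L.haar m {g | L.len g ≤ δ}).toReal := ENNReal.toReal_nonneg
  rw [div_mul_eq_mul_div, div_le_iff₀ hC1]
  have h6 := mul_le_mul_of_nonneg_right h3 h4.le
  have h7 := mul_le_mul_of_nonneg_left (hF.trans (le_max_left C 1)) h5
  linarith

end Lat

end Pool.Agent.P.MP_d483fb_an.Z
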