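import Pool.Agent.P.MP_d483fb_an.Z.Su.Base
import Pool.Agent.P.MP_d483fb_an.Z.Lie.Ex2

/-! The Finsler norm of a group with an exponential chart. -/

open scoped Matrix Matrix.Norms.Operator Topology
open NormedSpace Filter Set

set_option linter.unusedSectionVars false

noncomputable section

namespace Pool.Agent.P.MP_d483fb_an.Z

namespace ExpData

variable {G : Type} [Group G] [TopologicalSpace G] [IsTopologicalGroup G] [ConnectedSpace G] {n : ℕ}
  (D : ExpData G n)

/-- The infimum of the total lengths of the words in exponentials that represent `g`. -/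
def len (g : G) : ℝ :=
  sInf {r | ∃ l : List (Mat n), (∀ X ∈ l, X ∈ D.g) ∧ (l.map D.ex).prod = g ∧ (l.map norm).sum = r}

theorem Len_norm_one_le : ‖(1 : Mat n)‖ ≤ 1 := by
  rw [← Matrix.diagonal_one, Matrix.linfty_opNorm_diagonal]
  exact (pi_norm_le_iff_of_nonneg zero_le_one).2 fun i => by simp

theorem Len_norm_exp_sub_one (X : Mat n) : ‖exp X - 1‖ ≤ Real.exp ‖X‖ - 1 := by
  have h1 := (expSeries_hasSum_exp (𝕂 := ℝ) X)
  have h2 := (expSeries_hasSum_exp (𝕂 := ℝ) ‖X‖)
  rw [← hasSum_nat_add_iff' 1] at h1 h2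
  simp only [Finset.range_one, Finset.sum_singleton, expSeries_apply_eq, Nat.factorial_zero,
    Nat.cast_one, inv_one, pow_zero, one_smul] at h1 h2
  rw [Real.exp_eq_exp_ℝ]
  refine h1.norm_le_of_bounded h2 fun m => ?_
  rw [norm_smul, smul_eq_mul, Real.norm_of_nonneg (by positivity)]
  gcongr
  exact norm_pow_le' _ (Nat.succ_pos m)

theorem Len_nonempty (g : G) : {r | ∃ l : List (Mat n), (∀ X ∈ l, X ∈ D.g) ∧
    (l.map D.ex).prod = g ∧ (l.map norm).sum = r}.Nonempty := by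
  have : ∃ l : List (Mat n), (∀ X ∈ l, X ∈ D.g) ∧ (l.map D.ex).prod = g := by
    refine D.ex_induction (p := fun g => ∃ l : List (Mat n), (∀ X ∈ l, X ∈ D.g) ∧
      (l.map D.ex).prod = g) one_pos ⟨[], by simp, by simp⟩ ?_ g
    rintro X hX - x ⟨l, hl, rfl⟩
    exact ⟨X :: l, by simpa using ⟨hX, hl⟩, by simp⟩
  obtain ⟨l, hl, hg⟩ := this
  exact ⟨_, l, hl, hg, rfl⟩

theorem Len_sum_nonneg (l : List (Mat n)) : 0 ≤ (l.map norm).sum :=
  List.sum_nonneg fun x hx => by
    obtain ⟨X, -, rfl⟩ := List.mem_map.1 hx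
    exact norm_nonneg X

theorem Len_le {l : List (Mat n)} (hl : ∀ X ∈ l, X ∈ D.g) :
    D.len (l.map D.ex).prod ≤ (l.map norm).sum :=
  csInf_le ⟨0, by rintro _ ⟨l, -, -, rfl⟩; exact Len_sum_nonneg l⟩ ⟨l, hl, rfl, rfl⟩

theorem Len_le_len {g : G} {c : ℝ} (h : ∀ l : List (Mat n), (∀ X ∈ l, X ∈ D.g) →
    (l.map D.ex).prod = g → c ≤ (l.map norm).sum) : c ≤ D.len g :=
  le_csInf (D.Len_nonempty g) (by rintro _ ⟨l, hl, hg, rfl⟩; exact h l hl hg)

theorem Len_exists (g : G) {ε : ℝ} (hε : 0 < ε) : ∃ l : List (Mat n), (∀ X ∈ l, X ∈ D.g) ∧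
    (l.map D.ex).prod = g ∧ (l.map norm).sum < D.len g + ε := by
  obtain ⟨_, ⟨l, hl, hg, rfl⟩, h⟩ := exists_lt_of_csInf_lt (D.Len_nonempty g)
    (lt_add_of_pos_right (D.len g) hε)
  exact ⟨l, hl, hg, h⟩

theorem Len_inv_le (g : G) : D.len g⁻¹ ≤ D.len g := by
  refine D.Len_le_len fun l hl hg => ?_
  have h1 : ∀ l : List (Mat n), (∀ X ∈ l, X ∈ D.g) →
      (((l.map fun X => -X).reverse).map D.ex).prod = (l.map D.ex).prod⁻¹ := by
    intro l hl
    induction l with
    | nil => simp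
    | cons X l ih =>
      rw [List.map_cons, List.reverse_cons, List.map_append, List.prod_append,
        ih fun Y hY => hl Y (List.mem_cons_of_mem _ hY)]
      simp [D.ex_neg (hl X List.mem_cons_self)]
  have h2 := D.Len_le (l := (l.map fun X => -X).reverse) (fun X hX => by
    obtain ⟨Y, hY, rfl⟩ := List.mem_map.1 (List.mem_reverse.1 hX)
    exact D.g.neg_mem (hl Y hY))
  rw [h1 l hl, hg, List.map_reverse, List.sum_reverse, List.map_map] at h2
  simpa [Function.comp_def] using h2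

theorem Len_norm_prod (l : List (Mat n)) (hl : ∀ X ∈ l, X ∈ D.g) :
    ‖D.ρ (l.map D.ex).prod - 1‖ ≤ Real.exp (l.map norm).sum - 1 := by
  induction l with
  | nil => simp
  | cons X l ih =>
    have h1 := ih fun Y hY => hl Y (List.mem_cons_of_mem _ hY)
    have h2 := Len_norm_exp_sub_one X
    rw [List.map_cons, List.prod_cons, map_mul, D.ρ_ex _ (hl X List.mem_cons_self), List.map_cons,
      List.sum_cons, Real.exp_add]
    set B := D.ρ (l.map D.ex).prod
    have e : exp X * B - 1 = (exp X - 1) * (B - 1) + (exp X - 1) + (B - 1) := by noncomm_ring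
    rw [e]
    refine (norm_add₃_le).trans ?_
    have h3 := (norm_mul_le (exp X - 1) (B - 1)).trans
      (mul_le_mul h2 h1 (norm_nonneg _) ((norm_nonneg _).trans h2))
    linarith

theorem Len_split (l : List (Mat n)) (hl : ∀ X ∈ l, X ∈ D.g) {s : ℝ} (hs : 0 ≤ s) :
    ∃ l₁ l₂ : List (Mat n), (∀ X ∈ l₁, X ∈ D.g) ∧ (∀ X ∈ l₂, X ∈ D.g) ∧
      (l.map D.ex).prod = (l₁.map D.ex).prod * (l₂.map D.ex).prod ∧ (l₁.map norm).sum ≤ s ∧
      (l₂.map norm).sum ≤ max ((l.map norm).sum - s) 0 := by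
  induction l generalizing s with
  | nil => exact ⟨[], [], by simp, by simp, by simp, by simpa using hs, by simp⟩
  | cons X l ih =>
    have hX := hl X List.mem_cons_self
    have hl' : ∀ Y ∈ l, Y ∈ D.g := fun Y hY => hl Y (List.mem_cons_of_mem _ hY)
    rcases le_or_gt ‖X‖ s with h | h
    · obtain ⟨l₁, l₂, h1, h2, h3, h4, h5⟩ := ih hl' (sub_nonneg.2 h)
      refine ⟨X :: l₁, l₂, by simpa using ⟨hX, h1⟩, h2, by simp [h3, mul_assoc], ?_, ?_⟩
      · rw [List.map_cons, List.sum_cons]; linarith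
      · rw [List.map_cons, List.sum_cons]
        convert h5 using 2
        ring
    · have h0 : 0 < ‖X‖ := hs.trans_lt h
      have h1 : s / ‖X‖ ≤ 1 := (div_le_one h0).2 h.le
      refine ⟨[(s / ‖X‖) • X], (1 - s / ‖X‖) • X :: l, by simpa using D.g.smul_mem _ hX,
        by simpa using ⟨D.g.smul_mem _ hX, hl'⟩, ?_, ?_, ?_⟩
      · simp only [List.map_cons, List.prod_cons, List.map_nil, List.prod_nil, mul_one]
        rw [← mul_assoc, ← D.ex_add_smul hX, add_sub_cancel, one_smul]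
      · simp only [List.map_cons, List.sum_cons, List.map_nil, List.sum_nil, add_zero]
        rw [norm_smul, Real.norm_of_nonneg (by positivity), div_mul_cancel₀ _ h0.ne']
      · refine le_trans (le_of_eq ?_) (le_max_left _ _)
        simp only [List.map_cons, List.sum_cons]
        rw [norm_smul, Real.norm_of_nonneg (sub_nonneg.2 h1), sub_mul, div_mul_cancel₀ _ h0.ne']
        ring

theorem len_nonneg (g : G) : 0 ≤ D.len g :=
  D.Len_le_len fun l _ _ => Len_sum_nonneg l

theorem len_one : D.len 1 = 0 :=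
  le_antisymm (by simpa using D.Len_le (l := []) (by simp)) (D.len_nonneg 1)

theorem len_inv (g : G) : D.len g⁻¹ = D.len g :=
  le_antisymm (D.Len_inv_le g) (by simpa using D.Len_inv_le g⁻¹)

theorem len_mul (g h : G) : D.len (g * h) ≤ D.len g + D.len h := by
  refine le_of_forall_pos_le_add fun ε hε => ?_
  obtain ⟨l₁, h1, rfl, h2⟩ := D.Len_exists g (half_pos hε)
  obtain ⟨l₂, h3, rfl, h4⟩ := D.Len_exists h (half_pos hε)
  have := D.Len_le (l := l₁ ++ l₂) fun X hX => (List.mem_append.1 hX).elim (h1 X) (h3 X)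
  rw [List.map_append, List.prod_append, List.map_append, List.sum_append] at this
  linarith

theorem len_ex_le {X : Mat n} (hX : X ∈ D.g) : D.len (D.ex X) ≤ ‖X‖ := by
  simpa using D.Len_le (l := [X]) (by simpa using hX)

theorem norm_ρ_sub_one (g : G) : ‖D.ρ g - 1‖ ≤ Real.exp (D.len g) - 1 := by
  have h0 : 0 < ‖D.ρ g - 1‖ + 1 := by positivity
  have : Real.log (‖D.ρ g - 1‖ + 1) ≤ D.len g := D.Len_le_len fun l hl hg => by
    have := D.Len_norm_prod l hl
    rw [hg] at this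
    rw [Real.log_le_iff_le_exp h0]
    linarith
  rw [Real.log_le_iff_le_exp h0] at this
  linarith

theorem norm_ρ_le (g : G) : ‖D.ρ g‖ ≤ Real.exp (D.len g) := by
  have h1 := D.norm_ρ_sub_one g
  have h2 := norm_add_le (D.ρ g - 1) 1
  rw [sub_add_cancel] at h2
  have h3 := Len_norm_one_le (n := n)
  linarith

theorem norm_Ad_len (g : G) (X : Mat n) : ‖D.Ad g X‖ ≤ Real.exp (2 * D.len g) * ‖X‖ := by
  refine (D.norm_Ad_le g X).trans (mul_le_mul_of_nonneg_right ?_ (norm_nonneg _))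
  have h := D.norm_ρ_le g⁻¹
  rw [D.len_inv] at h
  rw [two_mul, Real.exp_add]
  exact mul_le_mul (D.norm_ρ_le g) h (norm_nonneg _) (Real.exp_pos _).le

theorem len_conj' (g h : G) : D.len (g * h * g⁻¹) ≤ ‖D.ρ g‖ * ‖D.ρ g⁻¹‖ * D.len h := by
  set c := ‖D.ρ g‖ * ‖D.ρ g⁻¹‖ with hc
  have hc0 : 0 ≤ c := by positivity
  have key : ∀ l : List (Mat n), (∀ X ∈ l, X ∈ D.g) →
      ((l.map (D.Ad g)).map D.ex).prod = g * (l.map D.ex).prod * g⁻¹ ∧
      ((l.map (D.Ad g)).map norm).sum ≤ c * (l.map norm).sum := by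
    intro l hl
    induction l with
    | nil => simp
    | cons X l ih =>
      obtain ⟨h1, h2⟩ := ih fun Y hY => hl Y (List.mem_cons_of_mem _ hY)
      simp only [List.map_cons, List.prod_cons, List.sum_cons]
      refine ⟨?_, ?_⟩
      · rw [h1, ← D.conj_ex g (hl X List.mem_cons_self)]
        group
      · have := D.norm_Ad_le g X
        rw [mul_add]
        linarith
  refine le_of_forall_pos_le_add fun ε hε => ?_
  obtain ⟨l, h1, rfl, h2⟩ := D.Len_exists h (ε := ε / (c + 1)) (by positivity)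
  have h3 := D.Len_le (l := l.map (D.Ad g)) fun X hX => by
    obtain ⟨Y, hY, rfl⟩ := List.mem_map.1 hX
    exact D.Ad_mem g (h1 Y hY)
  obtain ⟨h4, h5⟩ := key l h1
  rw [h4] at h3
  have h6 : c * (ε / (c + 1)) ≤ ε := by
    rw [← mul_div_assoc, div_le_iff₀ (by positivity)]
    nlinarith
  have h7 := mul_le_mul_of_nonneg_left h2.le hc0
  rw [mul_add] at h7
  linarith

theorem len_conj (g h : G) : D.len (g * h * g⁻¹) ≤ Real.exp (2 * D.len g) * D.len h := by
  refine (D.len_conj' g h).trans (mul_le_mul_of_nonneg_right ?_ (D.len_nonneg _))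
  have h := D.norm_ρ_le g⁻¹
  rw [D.len_inv] at h
  rw [two_mul, Real.exp_add]
  exact mul_le_mul (D.norm_ρ_le g) h (norm_nonneg _) (Real.exp_pos _).le

theorem continuous_len : Continuous D.len := by
  have h0 : Tendsto D.len (𝓝 1) (𝓝 0) := by
    have h1 : Tendsto (fun x => ‖D.lg x‖) (𝓝 1) (𝓝 0) := by
      simpa using (D.tendsto_lg.mono_right nhdsWithin_le_nhds).norm
    refine squeeze_zero' (Eventually.of_forall D.len_nonneg) ?_ h1
    filter_upwards [D.ex_lg] with x hx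
    simpa only [hx.2] using D.len_ex_le hx.1
  refine continuous_iff_continuousAt.2 fun h => ?_
  have h2 : Tendsto (fun g => D.len (g * h⁻¹)) (𝓝 h) (𝓝 0) :=
    h0.comp (by simpa using (continuous_mul_const h⁻¹).tendsto h)
  rw [ContinuousAt, tendsto_iff_norm_sub_tendsto_zero]
  refine squeeze_zero (fun _ => norm_nonneg _) (fun g => ?_) h2
  have h3 := D.len_mul (g * h⁻¹) h
  have h4 := D.len_mul (g * h⁻¹)⁻¹ g
  rw [D.len_inv] at h4
  simp only [inv_mul_cancel_right, mul_inv_rev, inv_inv] at h3 h4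
  rw [Real.norm_eq_abs, abs_le]
  constructor <;> linarith

theorem len_split' (g : G) {s t ε : ℝ} (hs : 0 ≤ s) (ht : 0 ≤ t) (hε : 0 < ε)
    (h : D.len g ≤ s + t) : ∃ u v, D.len u ≤ s ∧ D.len v ≤ t + ε ∧ g = u * v := by
  obtain ⟨l, hl, rfl, h2⟩ := D.Len_exists g hε
  obtain ⟨l₁, l₂, h3, h4, h5, h6, h7⟩ := D.Len_split l hl hs
  refine ⟨_, _, (D.Len_le h3).trans h6, (D.Len_le h4).trans (h7.trans ?_), h5⟩
  exact max_le (by linarith) (by positivity)

end ExpData

end Pool.Agent.P.MP_d483fb_an.Z
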