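import Mathlib

/-!
Quotients of proper metric spaces by properly acting groups of isometries, and proper norms on
topological groups.
-/

open scoped Topology
open Filter Set Metric

noncomputable section

namespace Pool.Agent.P.MP_d483fb_an.Z

/-- A surjection whose fibres are closed and mutually parallel. -/
structure Par {Z Q : Type} [MetricSpace Z] (q : Z → Q) : Prop where
  surj : Function.Surjective q
  closed : ∀ y, IsClosed (q ⁻¹' {y})
  par : ∀ z z' w, q z = q z' → ∃ w', q w' = q w ∧ dist z' w' = dist z w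

namespace Par

variable {Z Q : Type} [MetricSpace Z] [ProperSpace Z] {q : Z → Q}

/-- The quotient distance. -/
def qd (h : Par q) (x y : Q) : ℝ := infDist (h.surj x).choose (q ⁻¹' {y})

theorem lift (h : Par q) (z : Z) (y : Q) : ∃ w, q w = y ∧ dist z w = h.qd (q z) y := by
  obtain ⟨w, hw, e⟩ := (h.closed y).exists_infDist_eq_dist (h.surj y) (h.surj (q z)).choose
  obtain ⟨w', h1, h2⟩ := h.par _ z w (h.surj (q z)).choose_spec
  exact ⟨w', h1.trans hw, h2.trans e.symm⟩

omit [ProperSpace Z] in
theorem le (h : Par q) (z w : Z) : h.qd (q z) (q w) ≤ dist z w := by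
  obtain ⟨w', h1, h2⟩ := h.par z _ w (h.surj (q z)).choose_spec.symm
  exact (infDist_le_dist_of_mem (show w' ∈ q ⁻¹' {q w} from h1)).trans h2.le

/-- The quotient metric. -/
abbrev metric (h : Par q) : MetricSpace Q where
  dist := h.qd
  dist_self x := by
    obtain ⟨z, rfl⟩ := h.surj x
    exact le_antisymm ((h.le z z).trans (dist_self z).le) infDist_nonneg
  dist_comm x y := by
    have key : ∀ x y, h.qd x y ≤ h.qd y x := fun x y => by
      obtain ⟨z, rfl⟩ := h.surj y
      obtain ⟨w, rfl, e⟩ := h.lift z x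
      rw [← e, dist_comm]
      exact h.le w z
    exact le_antisymm (key x y) (key y x)
  dist_triangle x y u := by
    obtain ⟨z, rfl⟩ := h.surj x
    obtain ⟨w, rfl, e⟩ := h.lift z y
    obtain ⟨v, rfl, e'⟩ := h.lift w u
    rw [← e, ← e']
    exact (h.le z v).trans (dist_triangle _ _ _)
  eq_of_dist_eq_zero {x y} hxy := by
    obtain ⟨z, rfl⟩ := h.surj x
    obtain ⟨w, rfl, e⟩ := h.lift z y
    rw [eq_of_dist_eq_zero (e.trans hxy)]

end Par

section sub
variable {Z Q : Type} [MetricSpace Z] [MetricSpace Q] {q : Z → Q}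

/-- A submetry. -/
structure Subm (q : Z → Q) : Prop where
  surj : Function.Surjective q
  le : ∀ z w, dist (q z) (q w) ≤ dist z w
  lift : ∀ z y, ∃ w, q w = y ∧ dist z w = dist (q z) y

theorem Subm.continuous (h : Subm q) : Continuous q :=
  (LipschitzWith.of_dist_le_mul (K := 1) fun z w => by simpa using h.le z w).continuous

theorem Subm.image_ball (h : Subm q) (z : Z) (r : ℝ) : q '' ball z r = ball (q z) r := by
  ext y
  constructor
  · rintro ⟨w, hw, rfl⟩
    exact (h.le w z).trans_lt hw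
  · intro hy
    obtain ⟨w, rfl, e⟩ := h.lift z y
    exact ⟨w, by rwa [mem_ball, dist_comm, e, dist_comm], rfl⟩

theorem Subm.image_closedBall (h : Subm q) (z : Z) (r : ℝ) :
    q '' closedBall z r = closedBall (q z) r := by
  ext y
  constructor
  · rintro ⟨w, hw, rfl⟩
    exact (h.le w z).trans hw
  · intro hy
    obtain ⟨w, rfl, e⟩ := h.lift z y
    exact ⟨w, by rwa [mem_closedBall, dist_comm, e, dist_comm], rfl⟩

theorem Subm.isOpenMap (h : Subm q) : IsOpenMap q := by
  refine IsOpenMap.of_nhds_le fun z => ?_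
  intro s hs
  obtain ⟨r, hr, h1⟩ := Metric.mem_nhds_iff.mp (show q ⁻¹' s ∈ 𝓝 z from hs)
  refine mem_of_superset (ball_mem_nhds _ hr) ?_
  rw [← h.image_ball]
  exact image_subset_iff.mpr h1

theorem Subm.isOpenQuotientMap (h : Subm q) : IsOpenQuotientMap q :=
  ⟨h.surj, h.continuous, h.isOpenMap⟩

theorem Subm.properSpace [ProperSpace Z] (h : Subm q) : ProperSpace Q :=
  ⟨fun x r => by
    obtain ⟨z, rfl⟩ := h.surj x
    rw [← h.image_closedBall]
    exact (isCompact_closedBall z r).image h.continuous⟩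

end sub

theorem Par.subm {Z Q : Type} [MetricSpace Z] [ProperSpace Z] {q : Z → Q} (h : Par q) :
    @Subm Z Q _ h.metric q :=
  @Subm.mk Z Q _ h.metric q h.surj h.le h.lift

/-- A proper geodesic norm on a topological group with exponential distortion under
conjugation and polynomial covering numbers at small scales. -/
structure Nm (G : Type) [Group G] [TopologicalSpace G] where
  len : G → ℝ
  one : len 1 = 0
  inv : ∀ g, len g⁻¹ = len g
  mul : ∀ g h, len (g * h) ≤ len g + len h
  eq_one : ∀ g, len g = 0 → g = 1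
  cont : Continuous len
  cpt : ∀ R, IsCompact {g | len g ≤ R}
  conj : ∀ g h, len (g * h * g⁻¹) ≤ Real.exp (2 * len g) * len h
  split : ∀ g s t, 0 ≤ s → 0 ≤ t → len g ≤ s + t → ∃ u v, len u ≤ s ∧ len v ≤ t ∧ g = u * v
  cover : ∃ (C : ℝ) (d : ℕ), ∀ δ : ℝ, 0 < δ → δ ≤ 1 → ∃ F : Finset G, (F.card : ℝ) ≤ C / δ ^ d ∧
    ∀ g, len g ≤ 1 → ∃ f ∈ F, len (g * f⁻¹) ≤ δ

namespace Nm

variable {G : Type} [Group G] [TopologicalSpace G] (N : Nm G)

theorem nonneg (g : G) : 0 ≤ N.len g := by
  have := N.mul g g⁻¹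
  rw [mul_inv_cancel, N.one, N.inv] at this
  linarith

theorem swap (g h : G) : N.len (g * h⁻¹) = N.len (h * g⁻¹) := by
  rw [← N.inv, mul_inv_rev, inv_inv]

theorem mul3 (g h k : G) : N.len (g * h * k) ≤ N.len g + N.len h + N.len k :=
  (N.mul _ _).trans (add_le_add (N.mul g h) le_rfl)

theorem abs_sub (g h : G) : |N.len g - N.len h| ≤ N.len (g * h⁻¹) := by
  have h1 := N.mul (g * h⁻¹) h
  have h2 := N.mul (h * g⁻¹) g
  rw [inv_mul_cancel_right] at h1 h2
  rw [N.swap h g] at h2
  exact abs_sub_le_iff.mpr ⟨by linarith, by linarith⟩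

theorem ball_subset [T2Space G] {U : Set G} (hU : U ∈ 𝓝 (1 : G)) :
    ∃ r : ℝ, 0 < r ∧ ∀ g, N.len g < r → g ∈ U := by
  obtain ⟨V, hV, hVo, h1⟩ := mem_nhds_iff.mp hU
  have hK : IsCompact ({g | N.len g ≤ 1} \ V) := (N.cpt 1).diff hVo
  rcases ({g | N.len g ≤ 1} \ V).eq_empty_or_nonempty with he | hne
  · refine ⟨1, one_pos, fun g hg => hV ?_⟩
    by_contra hg'
    exact (he ▸ (⟨hg.le, hg'⟩ : g ∈ {g | N.len g ≤ 1} \ V) : g ∈ (∅ : Set G))
  · obtain ⟨g₀, hg₀, hmin⟩ := hK.exists_isMinOn hne N.cont.continuousOn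
    have hp : 0 < N.len g₀ := (N.nonneg g₀).lt_of_ne fun e =>
      hg₀.2 (by rw [N.eq_one g₀ e.symm]; exact h1)
    refine ⟨N.len g₀, hp, fun g hg => hV ?_⟩
    by_contra hg'
    exact absurd (hmin ⟨hg.le.trans hg₀.1, hg'⟩) (not_le.mpr hg)

/-- The group with the right invariant metric of the norm. -/
def Gm (_N : Nm G) : Type := G

variable [IsTopologicalGroup G] [T2Space G]

instance : MetricSpace N.Gm :=
  MetricSpace.ofDistTopology (α := G) (fun g h => N.len (g * h⁻¹))
    (fun g => by rw [mul_inv_cancel, N.one]) N.swap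
    (fun g h k => by
      have := N.mul (g * h⁻¹) (h * k⁻¹)
      rwa [mul_assoc, inv_mul_cancel_left] at this)
    (fun s => by
      constructor
      · intro hs g hg
        have h1 : (fun u => u⁻¹ * g) ⁻¹' s ∈ 𝓝 (1 : G) :=
          (hs.preimage (by fun_prop)).mem_nhds (by simpa using hg)
        obtain ⟨r, hr, h2⟩ := N.ball_subset h1
        exact ⟨r, hr, fun h hh => by simpa using h2 _ hh⟩
      · intro hs
        refine isOpen_iff_mem_nhds.mpr fun g hg => ?_
        obtain ⟨r, hr, h2⟩ := hs g hg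
        have h1 : IsOpen {h : G | N.len (g * h⁻¹) < r} :=
          isOpen_lt (N.cont.comp (by fun_prop)) continuous_const
        exact mem_of_superset (h1.mem_nhds (by simpa [N.one] using hr)) h2)
    (fun g h e => mul_inv_eq_one.mp (N.eq_one _ e))

theorem dist_Gm (g h : G) : @dist N.Gm _ g h = N.len (g * h⁻¹) := rfl

instance : ProperSpace N.Gm :=
  ⟨fun g r => by
    have h : IsCompact ((fun u : G => u * (show G from g)) '' {u | N.len u ≤ r}) :=
      (N.cpt r).image (by fun_prop)
    have e : (fun u : G => u * (show G from g)) '' {u | N.len u ≤ r} =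
        {u : G | N.len (u * (show G from g)⁻¹) ≤ r} := by
      ext u
      constructor
      · rintro ⟨v, hv, rfl⟩
        show N.len (v * (show G from g) * (show G from g)⁻¹) ≤ r
        rwa [mul_inv_cancel_right]
      · intro hu
        exact ⟨u * (show G from g)⁻¹, hu, inv_mul_cancel_right _ _⟩
    rw [e] at h
    exact h⟩

include N in
theorem polish : PolishSpace G := inferInstanceAs (PolishSpace N.Gm)

include N in
theorem locallyCompact : LocallyCompactSpace G := inferInstanceAs (LocallyCompactSpace N.Gm)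

end Nm

end Pool.Agent.P.MP_d483fb_an.Z
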