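import Pool.Agent.P.MP_d483fb_an.Z.Su.Base

/-! The suspension of an action of the lattice, as a measurable skew product over the base. -/

open scoped Topology
open Filter Set Metric MeasureTheory

set_option linter.unusedSectionVars false

noncomputable section

namespace Pool.Agent.P.MP_d483fb_an.Z

namespace Lat

variable {G : Type} [Group G] [TopologicalSpace G] [IsTopologicalGroup G] [T2Space G]
  [MeasurableSpace G] [BorelSpace G]

/-- The suspension space. -/
def Sk (L : Lat G) (Y : Type) : Type := L.B × Y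

variable {L : Lat G} {Y Y' : Type}

/-- The projection to the base. -/
def Sk.π (x : L.Sk Y) : L.B := x.1

/-- The fibre coordinate. -/
def Sk.pt (x : L.Sk Y) : Y := x.2

/-- The point with given coordinates. -/
def j (L : Lat G) (b : L.B) (p : Y) : L.Sk Y := (b, p)

@[simp] theorem π_j (b : L.B) (p : Y) : (L.j b p).π = b := rfl

@[simp] theorem pt_j (b : L.B) (p : Y) : (L.j b p).pt = p := rfl

@[simp] theorem j_eta (x : L.Sk Y) : L.j x.π x.pt = x := rfl

theorem Sk.ext {x y : L.Sk Y} (h : x.π = y.π) (h' : x.pt = y.pt) : x = y := Prod.ext h h'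

/-- The map of suspensions induced by a map of fibres. -/
def Sk.map (f : Y → Y') (x : L.Sk Y) : L.Sk Y' := L.j x.π (f x.pt)

@[simp] theorem π_map (f : Y → Y') (x : L.Sk Y) : (x.map f).π = x.π := rfl

@[simp] theorem pt_map (f : Y → Y') (x : L.Sk Y) : (x.map f).pt = f x.pt := rfl

instance [Nonempty Y] : Nonempty (L.Sk Y) := inferInstanceAs (Nonempty (L.B × Y))

section act
variable [MulAction L.Γ Y] [MulAction L.Γ Y']

instance : MulAction G (L.Sk Y) where
  smul g x := L.j (g • x.π) (L.c g x.π • x.pt)
  one_smul x := Sk.ext (one_smul G x.π) (by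
    show L.c 1 x.π • x.pt = x.pt
    rw [c_one, one_smul])
  mul_smul g h x := Sk.ext (mul_smul g h x.π) (by
    show L.c (g * h) x.π • x.pt = L.c g (h • x.π) • L.c h x.π • x.pt
    rw [c_mul, mul_smul])

@[simp] theorem π_smul (g : G) (x : L.Sk Y) : (g • x).π = g • x.π := rfl

@[simp] theorem pt_smul (g : G) (x : L.Sk Y) : (g • x).pt = L.c g x.π • x.pt := rfl

theorem smul_j (g : G) (b : L.B) (p : Y) : g • L.j b p = L.j (g • b) (L.c g b • p) := rfl

theorem map_smul_Sk {f : Y → Y'} (hf : ∀ (γ : L.Γ) p, f (γ • p) = γ • f p) (g : G) (x : L.Sk Y) :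
    (g • x).map f = g • x.map f := Sk.ext rfl (hf _ _)

/-- The quotient map from the product of the group and the fibre. -/
def q (L : Lat G) [MulAction L.Γ Y] (g : G) (p : Y) : L.Sk Y := L.j (L.pj g) (L.fr g • p)

@[simp] theorem π_q (g : G) (p : Y) : (L.q g p).π = L.pj g := rfl

@[simp] theorem pt_q (g : G) (p : Y) : (L.q g p).pt = L.fr g • p := rfl

theorem smul_q (g h : G) (p : Y) : g • L.q h p = L.q (g * h) p :=
  Sk.ext rfl (by rw [pt_smul, pt_q, pt_q, π_q, fr_smul, mul_smul])

theorem q_sec (b : L.B) (p : Y) : L.q (L.sec b) p = L.j b p :=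
  Sk.ext (L.pj_sec b) (by rw [pt_q, fr_sec, one_smul, pt_j])

theorem q_eta (x : L.Sk Y) : L.q (L.sec x.π) x.pt = x := q_sec _ _

theorem q_mul (g : G) (γ : L.Γ) (p : Y) : L.q (g * γ) p = L.q g (γ • p) :=
  Sk.ext (L.pj_mul g γ) (by rw [pt_q, pt_q, fr_mul, mul_smul])

theorem q_one (p : Y) : L.q 1 p = L.j L.o p := by rw [← q_sec, sec_o]

theorem smul_j_o (g : G) (p : Y) : g • L.j L.o p = L.q g p := by rw [← q_one, smul_q, mul_one]

theorem q_eq {g h : G} {p p' : Y} :
    L.q g p = L.q h p' ↔ ∃ γ : L.Γ, h = g * γ ∧ p = γ • p' := by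
  constructor
  · intro e
    let γ : L.Γ := ⟨_, L.pj_eq.mp (congrArg Sk.π e)⟩
    have h1 : h = g * γ := (mul_inv_cancel_left g h).symm
    refine ⟨γ, h1, ?_⟩
    rw [h1, q_mul] at e
    exact smul_left_cancel _ (congrArg Sk.pt e)
  · rintro ⟨γ, rfl, rfl⟩
    exact (q_mul g γ p').symm

end act

section meas
variable [MeasurableSpace Y] [MeasurableSpace Y']

instance : MeasurableSpace (L.Sk Y) := inferInstanceAs (MeasurableSpace (L.B × Y))

instance [StandardBorelSpace Y] : StandardBorelSpace (L.Sk Y) :=
  inferInstanceAs (StandardBorelSpace (L.B × Y))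

theorem measurable_π : Measurable (Sk.π : L.Sk Y → L.B) := measurable_fst

theorem measurable_pt : Measurable (Sk.pt : L.Sk Y → Y) := measurable_snd

theorem measurable_j {Z : Type*} [MeasurableSpace Z] {b : Z → L.B} {p : Z → Y} (hb : Measurable b)
    (hp : Measurable p) : Measurable fun z => L.j (b z) (p z) := hb.prodMk hp

theorem measurable_map_Sk {f : Y → Y'} (hf : Measurable f) :
    Measurable (Sk.map f : L.Sk Y → L.Sk Y') := measurable_j measurable_π (hf.comp measurable_pt)

/-- Functions of a lattice element and a point are jointly measurable. -/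
theorem measurable_lat {Z W : Type*} [MeasurableSpace Z] [MeasurableSpace W] {f : L.Γ → Z → W}
    (hf : ∀ γ, Measurable (f γ)) {V : Type*} [MeasurableSpace V] {γ : V → L.Γ} {z : V → Z}
    (hγ : Measurable γ) (hz : Measurable z) : Measurable fun v => f (γ v) (z v) :=
  (measurable_from_prod_countable_right (f := fun u : L.Γ × Z => f u.1 u.2) hf).comp (hγ.prodMk hz)

theorem measurable_c' {Z : Type*} [MeasurableSpace Z] {g : Z → G} {b : Z → L.B} (hg : Measurable g)
    (hb : Measurable b) : Measurable fun z => L.c (g z) (b z) := L.measurable_c.comp (hg.prodMk hb)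

instance : MeasurableSMul₂ G L.B := by
  have := L.polish
  exact ⟨(continuous_smul (M := G) (X := L.B)).measurable⟩

variable [MulAction L.Γ Y] [MeasurableConstSMul L.Γ Y]

instance : MeasurableSMul₂ L.Γ Y :=
  ⟨measurable_lat (f := fun (γ : L.Γ) (p : Y) => γ • p) (fun γ => measurable_const_smul γ)
    measurable_fst measurable_snd⟩

instance : MeasurableSMul₂ G (L.Sk Y) :=
  ⟨measurable_j (measurable_fst.smul (measurable_π.comp measurable_snd))
    ((measurable_c' measurable_fst (measurable_π.comp measurable_snd)).smul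
      (measurable_pt.comp measurable_snd))⟩

theorem measurable_q {Z : Type*} [MeasurableSpace Z] {g : Z → G} {p : Z → Y} (hg : Measurable g)
    (hp : Measurable p) : Measurable fun z => L.q (g z) (p z) :=
  measurable_j (L.measurable_pj.comp hg) ((L.measurable_fr.comp hg).smul hp)

end meas

end Lat

end Pool.Agent.P.MP_d483fb_an.Z
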