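import Pool.Agent.P.MP_d483fb_an.Z.Su.Sk

/-! A proper metric on the suspension of a Lipschitz action on a compact space. -/

open scoped Topology BoundedContinuousFunction
open Filter Set Metric MeasureTheory

set_option linter.unusedSectionVars false

noncomputable section

namespace Pool.Agent.P.MP_d483fb_an.Z

variable {G : Type} [Group G] [TopologicalSpace G] [IsTopologicalGroup G] [T2Space G]
  [MeasurableSpace G] [BorelSpace G]

/-- The Lipschitz constants of the action grow at most exponentially in the norm. -/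
class Fib (L : Lat G) (M : Type) [MetricSpace M] [MulAction L.Γ M] where
  S : ℝ
  S_nonneg : 0 ≤ S
  lip : ∀ (γ : L.Γ) (p p' : M), dist (γ • p) (γ • p') ≤ Real.exp (S * (1 + L.len γ)) * dist p p'

namespace Lat

variable {L : Lat G} {M : Type} [MetricSpace M] [CompactSpace M] [MulAction L.Γ M] [φ : Fib L M]

instance : ContinuousConstSMul L.Γ M :=
  ⟨fun γ => (LipschitzWith.of_dist_le_mul (K := ⟨_, (Real.exp_pos _).le⟩) (φ.lip γ)).continuous⟩

/-- The weight. -/
def wt (L : Lat G) (M : Type) [MetricSpace M] [MulAction L.Γ M] [φ : Fib L M] (g : G) : ℝ :=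
  Real.exp (-φ.S * L.len g)

theorem wt_pos (g : G) : 0 < L.wt M g := Real.exp_pos _

theorem wt_le_one (g : G) : L.wt M g ≤ 1 :=
  Real.exp_le_one_iff.mpr (by nlinarith [φ.S_nonneg, L.nonneg g])

theorem wt_mul (g h : G) : L.wt M (g * h) ≤ Real.exp (φ.S * L.len g) * L.wt M h := by
  rw [wt, wt, ← Real.exp_add]
  have := L.mul g⁻¹ (g * h)
  rw [inv_mul_cancel_left, L.inv] at this
  exact Real.exp_le_exp.mpr (by nlinarith [φ.S_nonneg])

theorem wt_sub (g h : G) : |L.wt M g - L.wt M h| ≤ φ.S * L.len (g * h⁻¹) := by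
  have key : ∀ g h : G, L.wt M g - L.wt M h ≤ φ.S * L.len (g * h⁻¹) := fun g h => by
    have h1 : L.len h - L.len g ≤ L.len (g * h⁻¹) := (abs_sub_le_iff.mp (L.abs_sub g h)).2
    have h2 := Real.add_one_le_exp (-φ.S * L.len h - -φ.S * L.len g)
    have h3 : L.wt M h = L.wt M g * Real.exp (-φ.S * L.len h - -φ.S * L.len g) := by
      rw [wt, wt, ← Real.exp_add, add_sub_cancel]
    have h4 := mul_le_mul_of_nonneg_left h1 φ.S_nonneg
    have h5 := mul_nonneg φ.S_nonneg (L.nonneg (g * h⁻¹))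
    have h6 := wt_pos (L := L) (M := M) g
    have h7 := wt_le_one (L := L) (M := M) g
    nlinarith [mul_le_mul_of_nonneg_left h2 h6.le, mul_le_mul_of_nonneg_left h4 h6.le,
      mul_le_mul_of_nonneg_right h7 h5]
  exact abs_sub_le_iff.mpr ⟨key g h, by rw [L.swap]; exact key h g⟩

theorem dist_le_diam (p p' : M) : dist p p' ≤ diam (univ : Set M) :=
  dist_le_diam_of_mem isCompact_univ.isBounded (mem_univ _) (mem_univ _)

/-- The product of the group and the fibre with an invariant metric. -/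
def Tot (_L : Lat G) (M : Type) : Type := G × M

/-- Weighted distance functions along the orbit. -/
def emb (L : Lat G) [MulAction L.Γ M] [Fib L M] (g : G) (p : M) : L.Γ × M →ᵇ ℝ :=
  BoundedContinuousFunction.ofNormedAddCommGroup
    (fun u => L.wt M (g * u.1) * dist (u.1⁻¹ • p) u.2)
    (continuous_prod_of_discrete_left.mpr fun γ =>
      show Continuous fun y => L.wt M (g * γ) * dist (γ⁻¹ • p) y by fun_prop) (diam (univ : Set M)) fun u => by
      rw [Real.norm_of_nonneg (mul_nonneg (wt_pos _).le dist_nonneg)]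
      exact (mul_le_of_le_one_left dist_nonneg (wt_le_one _)).trans (dist_le_diam _ _)

theorem emb_apply (g : G) (p : M) (γ : L.Γ) (y : M) :
    L.emb g p (γ, y) = L.wt M (g * γ) * dist (γ⁻¹ • p) y := rfl

instance : MetricSpace (L.Tot M) :=
  MetricSpace.induced (β := L.Gm × (L.Γ × M →ᵇ ℝ)) (fun z => (z.1, L.emb z.1 z.2))
    (by
      rintro ⟨g, p⟩ ⟨g', p'⟩ h
      obtain rfl : g = g' := congrArg Prod.fst h
      have h2 : L.emb g p (1, p) = L.emb g p' (1, p) := congrArg (fun z => z.2 (1, p)) h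
      rw [emb_apply, emb_apply, inv_one, one_smul, one_smul, dist_self, mul_zero] at h2
      rw [dist_eq_zero.mp ((mul_eq_zero.mp h2.symm).resolve_left (wt_pos _).ne')])
    inferInstance

/-- A point of the product. -/
def tot (L : Lat G) (g : G) (p : M) : L.Tot M := (g, p)

theorem dist_tot (g h : G) (p p' : M) : dist (L.tot g p) (L.tot h p') =
    max (L.len (g * h⁻¹)) (dist (L.emb g p) (L.emb h p')) := rfl

/-- The constant of the metric. -/
def K (L : Lat G) (M : Type) [MetricSpace M] [MulAction L.Γ M] [φ : Fib L M] : ℝ :=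
  1 + φ.S * diam (univ : Set M)

theorem one_le_K : 1 ≤ L.K M := le_add_of_nonneg_right (mul_nonneg φ.S_nonneg diam_nonneg)

theorem len_le_tot (g h : G) (p p' : M) : L.len (g * h⁻¹) ≤ dist (L.tot g p) (L.tot h p') :=
  le_max_left _ _

theorem wt_le_tot (g h : G) (p p' : M) (γ : L.Γ) :
    L.wt M (g * γ) * dist (γ⁻¹ • p) (γ⁻¹ • p') ≤ dist (L.tot g p) (L.tot h p') := by
  have := (BoundedContinuousFunction.dist_coe_le_dist (f := L.emb g p) (g := L.emb h p')
    (γ, γ⁻¹ • p')).trans (le_max_right (L.len (g * h⁻¹)) _)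
  rw [emb_apply, emb_apply, dist_self, mul_zero, Real.dist_eq, sub_zero] at this
  exact (le_abs_self _).trans this

theorem tot_le {g : G} {p p' : M} {r : ℝ} (h : G)
    (hr : ∀ γ : L.Γ, L.wt M (g * γ) * dist (γ⁻¹ • p) (γ⁻¹ • p') ≤ r) :
    dist (L.tot g p) (L.tot h p') ≤ r + L.K M * L.len (g * h⁻¹) := by
  have h0 : 0 ≤ r := (mul_nonneg (wt_pos _).le dist_nonneg).trans (hr 1)
  have h1 := L.nonneg (g * h⁻¹)
  have h2 := mul_nonneg (mul_nonneg φ.S_nonneg (diam_nonneg (s := (univ : Set M)))) h1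
  rw [dist_tot, K]
  refine max_le (by linarith) ((BoundedContinuousFunction.dist_le (by linarith)).mpr ?_)
  rintro ⟨γ, y⟩
  have h3 := wt_sub (L := L) (M := M) (g * γ) (h * γ)
  rw [show g * γ * (h * γ)⁻¹ = g * h⁻¹ by group] at h3
  have h4 := mul_le_mul_of_nonneg_left (abs_dist_sub_le (γ⁻¹ • p) (γ⁻¹ • p') y)
    (wt_pos (L := L) (M := M) (g * γ)).le
  have h5 := mul_le_mul h3 (dist_le_diam (γ⁻¹ • p') y) dist_nonneg (mul_nonneg φ.S_nonneg h1)
  rw [emb_apply, emb_apply, Real.dist_eq, show ∀ a b c d : ℝ, a * b - c * d =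
    a * (b - d) + (a - c) * d from fun _ _ _ _ => by ring]
  refine (abs_add_le _ _).trans ?_
  rw [abs_mul, abs_mul, abs_of_pos (wt_pos _), abs_of_nonneg dist_nonneg]
  linarith [hr γ]

theorem wt_lip (g : G) (p p' : M) (γ : L.Γ) : L.wt M (g * γ) * dist (γ⁻¹ • p) (γ⁻¹ • p') ≤
    Real.exp (φ.S * (1 + L.len g)) * dist p p' := by
  refine (mul_le_mul_of_nonneg_left (φ.lip _ _ _) (wt_pos _).le).trans ?_
  rw [← mul_assoc, wt, ← Real.exp_add, Subgroup.coe_inv, L.inv]
  refine mul_le_mul_of_nonneg_right (Real.exp_le_exp.mpr ?_) dist_nonneg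
  have := L.mul g⁻¹ (g * γ)
  rw [inv_mul_cancel_left, L.inv] at this
  nlinarith [φ.S_nonneg]

theorem tot_le' (g h : G) (p p' : M) : dist (L.tot g p) (L.tot h p') ≤
    Real.exp (φ.S * (1 + L.len g)) * dist p p' + L.K M * L.len (g * h⁻¹) :=
  tot_le h (wt_lip g p p')

theorem continuous_tot : Continuous fun z : G × M => L.tot z.1 z.2 := by
  refine continuous_iff_continuousAt.mpr fun z => tendsto_iff_dist_tendsto_zero.mpr ?_
  have h : Continuous fun u : G × M => Real.exp (φ.S * (1 + L.len u.1)) * dist u.2 z.2 +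
      L.K M * L.len (u.1 * z.1⁻¹) := by
    have := L.cont
    fun_prop
  refine squeeze_zero (fun _ => dist_nonneg) (fun u => tot_le' u.1 z.1 u.2 z.2) ?_
  simpa [L.one] using h.tendsto z

instance : ProperSpace (L.Tot M) :=
  ⟨fun z r => by
    have h0 : IsCompact {g : G | L.len (g * z.1⁻¹) ≤ r} := isCompact_closedBall (α := L.Gm) z.1 r
    have h := h0.prod (isCompact_univ (X := M))
    refine (h.image continuous_tot).of_isClosed_subset isClosed_closedBall fun u hu => ?_
    exact ⟨u, ⟨(len_le_tot u.1 z.1 u.2 z.2).trans hu, mem_univ _⟩, rfl⟩⟩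

theorem tot_right_le (g h : G) (p p' : M) (δ : L.Γ) :
    dist (L.tot (g * δ) (δ⁻¹ • p)) (L.tot (h * δ) (δ⁻¹ • p')) ≤ dist (L.tot g p) (L.tot h p') := by
  rw [dist_tot, dist_tot, show g * δ * (h * δ)⁻¹ = g * h⁻¹ by group]
  refine max_le_max le_rfl ((BoundedContinuousFunction.dist_le dist_nonneg).mpr ?_)
  rintro ⟨γ, y⟩
  have := BoundedContinuousFunction.dist_coe_le_dist (f := L.emb g p) (g := L.emb h p') (δ * γ, y)
  simpa only [emb_apply, mul_inv_rev, mul_smul, Subgroup.coe_mul, mul_assoc] using this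

theorem tot_right (g h : G) (p p' : M) (δ : L.Γ) :
    dist (L.tot (g * δ) (δ⁻¹ • p)) (L.tot (h * δ) (δ⁻¹ • p')) = dist (L.tot g p) (L.tot h p') := by
  refine le_antisymm (tot_right_le g h p p' δ) ?_
  simpa using tot_right_le (g * δ) (h * δ) (δ⁻¹ • p) (δ⁻¹ • p') δ⁻¹

theorem tot_left (u g h : G) (p p' : M) : dist (L.tot (u * g) p) (L.tot (u * h) p') ≤
    2 * L.K M * Real.exp ((φ.S + 2) * L.len u) * dist (L.tot g p) (L.tot h p') := by
  have h1 : ∀ γ : L.Γ, L.wt M (u * g * γ) * dist (γ⁻¹ • p) (γ⁻¹ • p') ≤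
      Real.exp (φ.S * L.len u) * dist (L.tot g p) (L.tot h p') := fun γ => by
    rw [mul_assoc u]
    refine (mul_le_mul_of_nonneg_right (wt_mul _ _) dist_nonneg).trans ?_
    rw [mul_assoc]
    exact mul_le_mul_of_nonneg_left (wt_le_tot g h p p' γ) (Real.exp_pos _).le
  refine (tot_le _ h1).trans ?_
  have h2 := (L.conj u (g * h⁻¹)).trans
    (mul_le_mul_of_nonneg_left (len_le_tot g h p p') (Real.exp_pos _).le)
  rw [show u * g * (u * h)⁻¹ = u * (g * h⁻¹) * u⁻¹ by group]
  have h3 := L.nonneg u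
  have h4 : Real.exp (φ.S * L.len u) ≤ Real.exp ((φ.S + 2) * L.len u) :=
    Real.exp_le_exp.mpr (by nlinarith)
  have h5 : Real.exp (2 * L.len u) ≤ Real.exp ((φ.S + 2) * L.len u) :=
    Real.exp_le_exp.mpr (by nlinarith [φ.S_nonneg])
  have h6 := one_le_K (L := L) (M := M)
  have h7 := mul_le_mul_of_nonneg_right h4 (dist_nonneg (x := L.tot g p) (y := L.tot h p'))
  have h8 := h2.trans (mul_le_mul_of_nonneg_right h5 dist_nonneg)
  have h9 := mul_nonneg (Real.exp_pos ((φ.S + 2) * L.len u)).le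
    (dist_nonneg (x := L.tot g p) (y := L.tot h p'))
  nlinarith [mul_le_mul_of_nonneg_left h8 (zero_le_one.trans h6), mul_le_mul_of_nonneg_right h6 h9]

theorem parX : Par (fun z : L.Tot M => L.q z.1 z.2) where
  surj x := ⟨L.tot _ _, q_eta x⟩
  closed x := by
    obtain ⟨r, hr, h⟩ := L.inj
    refine isClosed_of_pairwise_le_dist (ε := r * Real.exp (-2 * L.ht x.π)) (by positivity) ?_
    rintro ⟨g, p⟩ hz ⟨g', p'⟩ hz' hne
    refine le_trans (not_lt.mp fun hl => hne ?_) (len_le_tot g g' p p')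
    have e : L.q g p = x := hz
    have e' : L.q g' p' = x := hz'
    have h1 := h (g * g'⁻¹) x.π (by
      conv_lhs => rw [← e', π_q, smul_pj, inv_mul_cancel_right]
      exact congrArg Sk.π e) hl
    obtain rfl := mul_inv_eq_one.mp h1
    obtain rfl : p = p' := smul_left_cancel _ (congrArg Sk.pt (e.trans e'.symm))
    rfl
  par := by
    rintro ⟨g, p⟩ ⟨g', p'⟩ ⟨h, u⟩ e
    obtain ⟨γ, rfl, rfl⟩ : ∃ γ : L.Γ, g' = g * γ ∧ p = γ • p' := q_eq.mp e
    refine ⟨L.tot (h * γ) (γ⁻¹ • u), (q_mul h γ _).trans (congrArg (L.q h) (smul_inv_smul γ u)), ?_⟩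
    have := tot_right g h (γ • p') u γ
    rwa [inv_smul_smul] at this

instance : MetricSpace (L.Sk M) := parX.metric

theorem submX : Subm (fun z : L.Tot M => L.q z.1 z.2) := parX.subm

instance : ProperSpace (L.Sk M) := submX.properSpace

theorem continuous_q : Continuous fun z : G × M => L.q z.1 z.2 :=
  submX.continuous.comp continuous_tot

theorem dist_q_le (g h : G) (p p' : M) : dist (L.q g p) (L.q h p') ≤
    Real.exp (φ.S * (1 + L.len g)) * dist p p' + L.K M * L.len (g * h⁻¹) :=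
  (submX.le (L.tot g p) (L.tot h p')).trans (tot_le' g h p p')

theorem exists_liftX (g : G) (p : M) (y : L.Sk M) :
    ∃ h p', L.q h p' = y ∧ dist (L.tot g p) (L.tot h p') = dist (L.q g p) y := by
  obtain ⟨⟨h, p'⟩, h1, h2⟩ := submX.lift (L.tot g p) y
  exact ⟨h, p', h1, h2⟩

/-- Distances inside one fibre, upper bound. -/
theorem dist_j_le (b : L.B) (p p' : M) :
    dist (L.j b p) (L.j b p') ≤ Real.exp (φ.S * (1 + L.ht b)) * dist p p' := by
  have := dist_q_le (L := L) (L.sec b) (L.sec b) p p'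
  rwa [q_sec, q_sec, len_sec, mul_inv_cancel, L.one, mul_zero, add_zero] at this

theorem dist_smul_selfX (g : G) (x : L.Sk M) : dist (g • x) x ≤ L.K M * L.len g := by
  have := dist_q_le (L := L) (g * L.sec x.π) (L.sec x.π) x.pt x.pt
  rwa [← smul_q, q_eta, dist_self, mul_zero, zero_add, mul_inv_cancel_right] at this

/-- Upper bound for the distance by a displacement and a distance in the fibre. -/
theorem dist_smul_j_le (x : L.Sk M) (g : G) (p : M) : dist x (g • L.j x.π p) ≤
    Real.exp (φ.S * (1 + L.ht x.π)) * dist x.pt p + L.K M * L.len g :=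
  (dist_triangle x (L.j x.π p) _).trans (add_le_add (dist_j_le x.π x.pt p)
    (by rw [dist_comm]; exact dist_smul_selfX _ _))

/-- Every element acts by a Lipschitz map. -/
theorem dist_smulX (g : G) (x y : L.Sk M) :
    dist (g • x) (g • y) ≤ 2 * L.K M * Real.exp ((φ.S + 2) * L.len g) * dist x y := by
  obtain ⟨h, p, rfl, e⟩ := exists_liftX (L.sec x.π) x.pt y
  rw [q_eta] at e
  rw [← e, smul_q]
  conv_lhs => rw [← q_eta x, smul_q]
  exact (submX.le (L.tot _ _) (L.tot _ _)).trans (tot_left _ _ _ _ _)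

/-- Two points differ by a displacement and a change in the fibre. -/
theorem exists_smulX (x y : L.Sk M) : ∃ (g : G) (p : M), y = g • L.j x.π p ∧
    L.len g ≤ dist x y ∧ dist x.pt p ≤ Real.exp (φ.S * L.ht x.π) * dist x y := by
  obtain ⟨h, p, rfl, e⟩ := exists_liftX (L.sec x.π) x.pt y
  rw [q_eta] at e
  refine ⟨h * (L.sec x.π)⁻¹, p, by rw [← q_sec, smul_q, inv_mul_cancel_right], ?_, ?_⟩
  · rw [L.swap, ← e]
    exact len_le_tot _ _ _ _
  · have := mul_le_mul_of_nonneg_left (wt_le_tot (L := L) (L.sec x.π) h x.pt p 1)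
      (Real.exp_pos (φ.S * L.ht x.π)).le
    rwa [e, ← mul_assoc, wt, ← Real.exp_add, OneMemClass.coe_one, mul_one, len_sec, neg_mul,
      add_neg_cancel, Real.exp_zero, one_mul, inv_one, one_smul, one_smul] at this

theorem dist_π_le (x y : L.Sk M) : dist x.π y.π ≤ dist x y := by
  obtain ⟨g, p, e, h, -⟩ := exists_smulX x y
  rw [congrArg Sk.π e, dist_comm]
  exact (L.dist_smul_self g _).trans h

theorem continuous_π : Continuous (Sk.π : L.Sk M → L.B) :=
  (LipschitzWith.of_dist_le_mul (K := 1) fun x y => by simpa using dist_π_le x y).continuous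

theorem continuous_j (b : L.B) : Continuous (L.j b : M → L.Sk M) :=
  (LipschitzWith.of_dist_le_mul (K := ⟨_, (Real.exp_pos _).le⟩) (dist_j_le b)).continuous

theorem isCompact_htX (R : ℝ) : IsCompact {x : L.Sk M | L.ht x.π ≤ R} :=
  ((((L.cpt R).prod isCompact_univ).image continuous_q).of_isClosed_subset
    (isClosed_le (L.continuous_ht.comp continuous_π) continuous_const)
    fun x hx => ⟨(L.sec x.π, x.pt), ⟨(L.len_sec _).trans_le hx, mem_univ _⟩, q_eta x⟩)

theorem isCompact_preimage_π {C : Set L.B} (hC : IsCompact C) :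
    IsCompact (Sk.π ⁻¹' C : Set (L.Sk M)) := by
  obtain ⟨R, hR⟩ := hC.isBounded.subset_closedBall L.o
  exact (isCompact_htX R).of_isClosed_subset (hC.isClosed.preimage continuous_π)
    fun x hx => hR hx

theorem isProperMap_π : IsProperMap (Sk.π : L.Sk M → L.B) :=
  isProperMap_iff_isCompact_preimage.mpr ⟨continuous_π, fun _ => isCompact_preimage_π⟩

instance : ContinuousSMul G (L.Sk M) :=
  ⟨continuous_iff_continuousAt.mpr fun z => tendsto_iff_dist_tendsto_zero.mpr (by
    have h : Continuous fun u : G × L.Sk M => L.K M * L.len (u.1 * z.1⁻¹) +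
        2 * L.K M * Real.exp ((φ.S + 2) * L.len z.1) * dist u.2 z.2 := by
      have := L.cont
      fun_prop
    refine squeeze_zero (fun _ => dist_nonneg) (fun u => (dist_triangle _ (z.1 • u.2) _).trans
      (add_le_add ?_ (dist_smulX _ _ _))) (by simpa [L.one] using h.tendsto z)
    simpa [smul_smul] using dist_smul_selfX (u.1 * z.1⁻¹) (z.1 • u.2))⟩

variable [MeasurableSpace M] [BorelSpace M]

instance : BorelSpace (L.Sk M) := by
  have := L.polish
  have h0 : ∀ m : MeasurableSpace (L.Sk M), m = borel _ →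
      @MeasurableEmbedding (L.B × M) (L.Sk M) _ m id := fun m hm => by
    have : BorelSpace (L.Sk M) := ⟨hm⟩
    have h2 : Measurable fun z : L.B × M => L.q (L.sec z.1) z.2 :=
      continuous_q.measurable.comp ((L.measurable_sec.comp measurable_fst).prodMk measurable_snd)
    simp only [q_sec] at h2
    exact Measurable.measurableEmbedding (γ := L.B × M) h2 Function.injective_id
  have h1 := h0 _ rfl
  exact ⟨le_antisymm (fun s hs => (image_id s).subst
    (motive := @MeasurableSet (L.Sk M) (borel (L.Sk M))) (@MeasurableEmbedding.measurableSet_image'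
      (L.B × M) (L.Sk M) _ (borel _) _ h1 s hs))
    fun s hs => @MeasurableEmbedding.measurable (L.B × M) (L.Sk M) _ (borel _) _ h1 s hs⟩

end Lat

end Pool.Agent.P.MP_d483fb_an.Z
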